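import Mathlib

/-!
# E-T (MP_12a1af_nt), project T*: the schedule (definitions)

Everything is explicit arithmetic of natural numbers.  `c` is a large constant, `CC c = 2 ^ c` is
the base.  For a position `s`: `lg c s` its size, `ep c s` its epoch, `Wd c s` the width of the grid
unit which contains it, `un c s` the start of this unit, `gl c l s` the largest multiple of
`CC c ^ l` which is `≤ s`.

The front of the tent `(g, l)` (`g` a multiple of `CC c ^ l`) passes the unit `b` upwards at the
time `Ut c l b` and downwards at the time `Dt c l b`, `g = gl c l b`; the last event of a unit is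
`Ut c (lg c b + 1) b` (anchor `0`).  An event of time `x` of the anchor `g` is carried out at the
first opportunity of class `cls c g` which is `≥ x`, that is: it is done at the time `t` iff
`x ≤ opp c (cls c g) t`.
-/

namespace Pool.Agent.Helper29.ETK

/-- the base -/
def CC (c : ℕ) : ℕ := 2 ^ c

/-- size of a position or of a time -/
def lg (c s : ℕ) : ℕ := Nat.log (CC c) s

/-- epoch of a position -/
def ep (c s : ℕ) : ℕ := lg c s / 3

/-- width of the units at the position `s` -/
def Wd (c s : ℕ) : ℕ := CC c ^ ep c s

/-- level of the newborn cells (except in the first cell of an epoch) -/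
def j0 (c s : ℕ) : ℕ := ep c s + 8

/-- a third of the length of the window -/
def Hb (c s : ℕ) : ℕ := CC c ^ j0 c s

/-- level of the newborn cells -/
def jn (c s : ℕ) : ℕ := if s < CC c ^ (3 * ep c s) + CC c ^ j0 c s then j0 c s - 1 else j0 c s

/-- length of the newborn cells -/
def nb (c s : ℕ) : ℕ := CC c ^ jn c s

/-- start of the unit which contains `s` -/
def un (c s : ℕ) : ℕ := Wd c s * (s / Wd c s)

/-- the multiple of `CC c ^ l` below `s` -/
def gl (c l s : ℕ) : ℕ := CC c ^ l * (s / CC c ^ l)

/-- multiplication by `1 + 1 / CC c` -/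
def sl (c x : ℕ) : ℕ := x + x / CC c

/-- time at which the front of the tent of level `l` passes the unit `b` upwards -/
def Ut (c l b : ℕ) : ℕ := gl c l b + 5 * CC c ^ (l - 1) + sl c (b + Wd c b - gl c l b)

/-- time at which the front of the tent of level `l` passes the unit `b` downwards -/
def Dt (c l b : ℕ) : ℕ := gl c l b + 5 * CC c ^ (l - 1) + sl c (2 * CC c ^ l + gl c l b - b)

/-- epoch of a time -/
def epo (c t : ℕ) : ℕ := (lg c t - 1) / 3

/-- binary logarithm of the number of classes -/
def kk (E : ℕ) : ℕ := Nat.clog 2 (8 * (3 * E + 10))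

/-- length of a phase in the epoch `E` -/
def Gq (c E : ℕ) : ℕ := 2 ^ (c * (E - 1) - 10 - kk E)

/-- period of the opportunities in the epoch `E` -/
def Tq (c E : ℕ) : ℕ := 8 * Gq c E * 2 ^ kk E

/-- opportunities of the class `k` -/
def IsOpp (c k τ : ℕ) : Prop := τ % Tq c (epo c τ) = 8 * Gq c (epo c τ) * k

instance (c k : ℕ) : DecidablePred (IsOpp c k) := fun τ => by unfold IsOpp; infer_instance

/-- the last opportunity of the class `k` until the time `t` -/
def opp (c k t : ℕ) : ℕ := Nat.findGreatest (IsOpp c k) t

/-- largest level of an anchor -/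
def lv (c f : ℕ) : ℕ := Nat.findGreatest (fun l => CC c ^ l ∣ f) (lg c f)

/-- class of an anchor -/
def cls (c f : ℕ) : ℕ := if f = 0 then 0 else 8 * (lv c f + 1) + f / CC c ^ lv c f % 8

/-- the up event of level `l` of the unit `b` is done at the time `t` -/
def exU (c t l b : ℕ) : Prop := Ut c l b ≤ opp c (cls c (gl c l b)) t

/-- the down event of level `l` of the unit `b` is done at the time `t` -/
def exD (c t l b : ℕ) : Prop := Dt c l b ≤ opp c (cls c (gl c l b)) t

instance (c t l b : ℕ) : Decidable (exU c t l b) := by unfold exU; infer_instance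

instance (c t l b : ℕ) : Decidable (exD c t l b) := by unfold exD; infer_instance

/-- the last event of the unit `b` is done -/
def fin (c t b : ℕ) : Prop := exU c t (lg c b + 1) b

instance (c t b : ℕ) : Decidable (fin c t b) := by unfold fin; infer_instance

/-- level of the state of the unit `b` at the time `t` -/
def lev (c t b : ℕ) : ℕ :=
  if fin c t b then lg c b + 1 else
    max (jn c b) (Nat.findGreatest (fun l => j0 c b < l ∧ exU c t l b) (lg c b))

/-- the unit `b` is in a `P` state at the time `t` -/
def isP (c t b : ℕ) : Prop :=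
  fin c t b ∨ (j0 c b < lev c t b ∧ ¬ exD c t (lev c t b) b)

instance (c t b : ℕ) : Decidable (isP c t b) := by unfold isP; infer_instance

/-- anchor of the unit `b` at the time `t`, if it is in a `P` state -/
def ga (c t b : ℕ) : ℕ := gl c (lev c t b) b

/-- anchor of the unit `b` at the time `t`, if it is in an `R` state -/
def va (c t b : ℕ) : ℕ := gl c (lev c t b) b + CC c ^ lev c t b

/-- phase of the time `t` in its slot (`0, 1, 2`: a transition may be going on) -/
def ph (c t : ℕ) : ℕ := t % (8 * Gq c (epo c t)) / Gq c (epo c t)

/-- start of the slot of `t` -/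
def sst (c t : ℕ) : ℕ := t - t % (8 * Gq c (epo c t))

/-- the time before a possible transition -/
def tm (c t : ℕ) : ℕ := if ph c t < 3 then sst c t - 1 else t

/-- a unit in transition at the time `t`, `0` if there is none -/
def ab (c t : ℕ) : ℕ :=
  Nat.findGreatest (fun b => un c b = b ∧ ¬ (isP c (tm c t) b ↔ isP c t b)) t

/-- the anchor of the `P` region of the transition -/
def ag (c t : ℕ) : ℕ := if isP c (tm c t) (ab c t) then ga c (tm c t) (ab c t) else ga c t (ab c t)

/-- the anchor of the `R` region of the transition -/
def av (c t : ℕ) : ℕ := if isP c (tm c t) (ab c t) then va c t (ab c t) else va c (tm c t) (ab c t)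

/-- the kind of the transitional state: `0` is `P^T, R`, `1` is `P, R`, `2` is `P, R^T` -/
def ak (c t : ℕ) : ℕ := if isP c (tm c t) (ab c t) then 2 - ph c t else ph c t

/-- kinds of regions: `P g`: bottom `g`; `PT g b`: bottom `g`, top `b + Wd c b`, block on the unit
`b`; `R v`, `RT v`, `RTh v`: top `v`, the last two have a block on their first unit. -/
inductive Kid
  | P (g : ℕ)
  | PT (g b : ℕ)
  | R (v : ℕ)
  | RT (v : ℕ)
  | RTh (v : ℕ)
  deriving DecidableEq

/-- the `P` regions at the time `t` -/
def kidP (c t g : ℕ) : Kid := if 0 < ab c t ∧ ag c t = g ∧ ak c t = 0 then .PT g (ab c t) else .P g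

/-- the `R` regions at the time `t` -/
def kidR (c t v : ℕ) : Kid :=
  if 0 < ab c t ∧ av c t = v then (if ak c t = 2 then .RT v else .R v) else .RTh v

/-- the region which contains the position `s` at the time `t`, for `s < wb c t` -/
def kid (c t s : ℕ) : Kid :=
  if isP c (tm c t) (un c s) then kidP c t (ga c (tm c t) (un c s)) else
    if isP c t (un c s) then kidP c t (ga c t (un c s)) else kidR c t (va c t (un c s))

/-- bottom of the window at the time `t`: the newborn cell `[f, f + nb f)` is born at the time
`f + 3 * Hb f` -/
def wb (c t : ℕ) : ℕ :=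
  Nat.findGreatest (fun w => 0 < w ∧ nb c (w - 1) ∣ w ∧ w + 3 * Hb c (w - 1) ≤ t + nb c (w - 1)) t

/-- the window is composite -/
def wcomp (c t : ℕ) : Prop := wb c t + 3 * Hb c (wb c t) ≤ t + 2 * Gq c (epo c t)

instance (c t : ℕ) : Decidable (wcomp c t) := by unfold wcomp; infer_instance

/-- near threshold at the time `t` -/
def gth (c t : ℕ) : ℕ := Gq c (epo c t - 1)

end Pool.Agent.Helper29.ETK
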