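import Mathlib
import Pool.Agent.Helper29.ETK.Sched

/-!
# E-T (MP_12a1af_nt), project T*: the schedule, elementary facts
-/

namespace Pool.Agent.Helper29.ETK

variable {c : ℕ}

lemma CC_pos (c : ℕ) : 0 < CC c := by unfold CC; positivity

lemma CC_ge (hc : 10 ≤ c) : 1024 ≤ CC c := by
  unfold CC
  calc 1024 = 2 ^ 10 := by norm_num
    _ ≤ 2 ^ c := Nat.pow_le_pow_right (by norm_num) hc

lemma one_lt_CC (hc : 10 ≤ c) : 1 < CC c := by have := CC_ge hc; omega

lemma pow_pos' (c l : ℕ) : 0 < CC c ^ l := pow_pos (CC_pos c) l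

lemma pow_le (c : ℕ) {l l' : ℕ} (h : l ≤ l') : CC c ^ l ≤ CC c ^ l' :=
  Nat.pow_le_pow_right (CC_pos c) h

lemma pow_dvd' (c : ℕ) {l l' : ℕ} (h : l ≤ l') : CC c ^ l ∣ CC c ^ l' := pow_dvd_pow _ h

lemma lg_le (c : ℕ) {s : ℕ} (hs : s ≠ 0) : CC c ^ lg c s ≤ s := Nat.pow_log_le_self _ hs

lemma lt_lg (hc : 10 ≤ c) (s : ℕ) : s < CC c ^ (lg c s + 1) :=
  Nat.lt_pow_succ_log_self (one_lt_CC hc) s

lemma lg_mono {s s' : ℕ} (h : s ≤ s') : lg c s ≤ lg c s' := Nat.log_mono_right h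

lemma lg_eq (hc : 10 ≤ c) {s l : ℕ} (h1 : CC c ^ l ≤ s) (h2 : s < CC c ^ (l + 1)) :
    lg c s = l := by
  have h := one_lt_CC hc
  have h3 : l ≤ lg c s := Nat.le_log_of_pow_le h h1
  have h4 : lg c s < l + 1 := Nat.log_lt_of_lt_pow (by have := pow_pos' c l; omega) h2
  omega

lemma le_lg (hc : 10 ≤ c) {s l : ℕ} (h1 : CC c ^ l ≤ s) : l ≤ lg c s :=
  Nat.le_log_of_pow_le (one_lt_CC hc) h1

lemma lg_lt {s l : ℕ} (hl : 0 < l) (h2 : s < CC c ^ l) : lg c s < l := by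
  rcases Nat.eq_zero_or_pos s with rfl | hs
  · simpa [lg] using hl
  · exact Nat.log_lt_of_lt_pow (by omega) h2

lemma Wd_pos (c s : ℕ) : 0 < Wd c s := pow_pos' _ _

lemma Wd_dvd_pow {l s : ℕ} (h : ep c s ≤ l) : Wd c s ∣ CC c ^ l := pow_dvd' c h

lemma ep_le_lg (c s : ℕ) : ep c s ≤ lg c s := by unfold ep; omega

lemma three_ep_le (c s : ℕ) : 3 * ep c s ≤ lg c s := by unfold ep; omega

lemma un_le (c s : ℕ) : un c s ≤ s := by
  unfold un
  exact Nat.mul_div_le s _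

lemma lt_un (c s : ℕ) : s < un c s + Wd c s := by
  unfold un
  have := Nat.lt_mul_div_succ s (Wd_pos c s)
  rw [mul_add, mul_one] at this
  exact this

lemma Wd_dvd_un (c s : ℕ) : Wd c s ∣ un c s := Dvd.intro _ rfl

/-- multiples of the unit width below `s` are `≤ un c s` -/
lemma le_un {s x : ℕ} (hx : Wd c s ∣ x) (h : x ≤ s) : x ≤ un c s := by
  obtain ⟨k, rfl⟩ := hx
  unfold un
  apply Nat.mul_le_mul_left
  rw [Nat.le_div_iff_mul_le (Wd_pos c s)]
  calc k * Wd c s = Wd c s * k := by ring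
    _ ≤ s := h

lemma lg_un (hc : 10 ≤ c) (s : ℕ) : lg c (un c s) = lg c s := by
  rcases Nat.eq_zero_or_pos s with rfl | hs
  · simp [un]
  · apply lg_eq hc
    · exact le_un (Wd_dvd_pow (ep_le_lg c s)) (lg_le c (by omega))
    · exact lt_of_le_of_lt (un_le c s) (lt_lg hc s)

lemma ep_un (hc : 10 ≤ c) (s : ℕ) : ep c (un c s) = ep c s := by
  unfold ep; rw [lg_un hc]

lemma Wd_un (hc : 10 ≤ c) (s : ℕ) : Wd c (un c s) = Wd c s := by
  unfold Wd; rw [ep_un hc]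

lemma j0_un (hc : 10 ≤ c) (s : ℕ) : j0 c (un c s) = j0 c s := by
  unfold j0; rw [ep_un hc]

lemma un_eq_iff {b : ℕ} : un c b = b ↔ Wd c b ∣ b := by
  constructor
  · intro h
    rw [← h]
    conv_lhs => rw [h]
    exact Wd_dvd_un c b
  · intro h
    exact Nat.mul_div_cancel' h

lemma un_un (hc : 10 ≤ c) (s : ℕ) : un c (un c s) = un c s := by
  rw [un_eq_iff, Wd_un hc]
  exact Wd_dvd_un c s

lemma gl_le (c l s : ℕ) : gl c l s ≤ s := Nat.mul_div_le s _

lemma lt_gl (c l s : ℕ) : s < gl c l s + CC c ^ l := by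
  unfold gl
  have := Nat.lt_mul_div_succ s (pow_pos' c l)
  rw [mul_add, mul_one] at this
  exact this

lemma dvd_gl (c l s : ℕ) : CC c ^ l ∣ gl c l s := Dvd.intro _ rfl

/-- characterisation of `gl` -/
lemma gl_eq {l s g : ℕ} (hg : CC c ^ l ∣ g) (h1 : g ≤ s) (h2 : s < g + CC c ^ l) :
    gl c l s = g := by
  obtain ⟨k, rfl⟩ := hg
  unfold gl
  have : s / CC c ^ l = k := by
    rw [Nat.div_eq_iff (pow_pos' c l)]
    have := pow_pos' c l
    constructor
    · calc k * CC c ^ l = CC c ^ l * k := by ring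
        _ ≤ s := h1
    · have e : CC c ^ l * k = k * CC c ^ l := by ring
      rw [e] at h2
      omega
  rw [this]

lemma le_gl {l s x : ℕ} (hx : CC c ^ l ∣ x) (h : x ≤ s) : x ≤ gl c l s := by
  obtain ⟨k, rfl⟩ := hx
  unfold gl
  apply Nat.mul_le_mul_left
  rw [Nat.le_div_iff_mul_le (pow_pos' c l)]
  calc k * CC c ^ l = CC c ^ l * k := by ring
    _ ≤ s := h

lemma gl_mono_level {l l' s : ℕ} (h : l ≤ l') : gl c l' s ≤ gl c l s :=
  le_gl ((pow_dvd' c h).trans (dvd_gl c l' s)) (gl_le c l' s)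

/-- cells are nested -/
lemma gl_add_le {l l' s : ℕ} (h : l ≤ l') : gl c l s + CC c ^ l ≤ gl c l' s + CC c ^ l' := by
  have h1 : CC c ^ l ∣ gl c l' s + CC c ^ l' :=
    Dvd.dvd.add ((pow_dvd' c h).trans (dvd_gl c l' s)) (pow_dvd' c h)
  have h2 := dvd_gl c l s
  have h3 := lt_gl c l' s
  have h4 := gl_le c l s
  obtain ⟨k, hk⟩ := h1
  obtain ⟨m, hm⟩ := h2
  rw [hk, hm]
  have h5 : CC c ^ l * m < CC c ^ l * k := by rw [← hk, ← hm]; omega
  have h6 : m < k := lt_of_mul_lt_mul_left h5 (Nat.zero_le _)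
  calc CC c ^ l * m + CC c ^ l = CC c ^ l * (m + 1) := by ring
    _ ≤ _ := Nat.mul_le_mul_left _ h6

lemma gl_gl {l l' s : ℕ} (h : l ≤ l') : gl c l' (gl c l s) = gl c l' s := by
  apply gl_eq (dvd_gl c l' s) (gl_mono_level h)
  have := gl_le c l s
  have := lt_gl c l' s
  omega

/-- two positions in the same cell of level `l` are in the same cell of level `l' ≥ l` -/
lemma gl_eq_of_gl_eq {l l' s s' : ℕ} (h : l ≤ l') (hs : gl c l s = gl c l s') :
    gl c l' s = gl c l' s' := by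
  rw [← gl_gl (c := c) (s := s) h, hs, gl_gl h]

lemma gl_un (hc : 10 ≤ c) {l s : ℕ} (h : ep c s ≤ l) : gl c l (un c s) = gl c l s := by
  apply gl_eq (dvd_gl c l s)
  · exact le_un ((Wd_dvd_pow h).trans (dvd_gl c l s)) (gl_le c l s)
  · have := un_le c s
    have := lt_gl c l s
    omega

lemma gl_zero_of_lt {l s : ℕ} (h : s < CC c ^ l) : gl c l s = 0 := by
  apply gl_eq (dvd_zero _) (Nat.zero_le _)
  omega

lemma gl_top (hc : 10 ≤ c) (b : ℕ) : gl c (lg c b + 1) b = 0 := gl_zero_of_lt (lt_lg hc b)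

lemma gl_pos {l s : ℕ} (hs : s ≠ 0) (hl : l ≤ lg c s) : 0 < gl c l s := by
  have h1 := lg_le c hs
  have h2 := pow_le c hl
  have h3 : CC c ^ l ≤ gl c l s := le_gl (dvd_refl _) (by omega)
  have := pow_pos' c l
  omega

/-- the size is constant on a cell with nonzero anchor -/
lemma lg_cell (hc : 10 ≤ c) {l s g : ℕ} (hg : CC c ^ l ∣ g) (hg0 : 0 < g) (h1 : g ≤ s)
    (h2 : s < g + CC c ^ l) : lg c s = lg c g := by
  have hl : CC c ^ l ≤ g := Nat.le_of_dvd hg0 hg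
  have h3 : l ≤ lg c g := le_lg hc hl
  apply lg_eq hc
  · have := lg_le c (s := g) (by omega)
    omega
  · have h4 := lt_lg hc g
    have h5 : CC c ^ l ∣ CC c ^ (lg c g + 1) := pow_dvd' c (by omega)
    obtain ⟨k, hk⟩ := hg
    obtain ⟨m, hm⟩ := h5
    rw [hm]
    rw [hm, hk] at h4
    have h6 : k < m := lt_of_mul_lt_mul_left h4 (Nat.zero_le _)
    calc s < g + CC c ^ l := h2
      _ = CC c ^ l * (k + 1) := by rw [hk]; ring
      _ ≤ _ := Nat.mul_le_mul_left _ h6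

lemma lg_cell' (hc : 10 ≤ c) {l s s' : ℕ} (hs : s ≠ 0) (hl : l ≤ lg c s)
    (h : gl c l s = gl c l s') : lg c s = lg c s' := by
  have h0 := gl_pos hs hl
  have h1 := lg_cell hc (dvd_gl c l s) h0 (gl_le c l s) (lt_gl c l s)
  have h2 := lg_cell hc (dvd_gl c l s') (by rw [← h]; exact h0) (gl_le c l s') (lt_gl c l s')
  rw [h1, h2, h]

lemma ep_cell' (hc : 10 ≤ c) {l s s' : ℕ} (hs : s ≠ 0) (hl : l ≤ lg c s)
    (h : gl c l s = gl c l s') : ep c s = ep c s' := by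
  unfold ep; rw [lg_cell' hc hs hl h]

lemma Wd_cell' (hc : 10 ≤ c) {l s s' : ℕ} (hs : s ≠ 0) (hl : l ≤ lg c s)
    (h : gl c l s = gl c l s') : Wd c s = Wd c s' := by
  unfold Wd; rw [ep_cell' hc hs hl h]

lemma j0_cell' (hc : 10 ≤ c) {l s s' : ℕ} (hs : s ≠ 0) (hl : l ≤ lg c s)
    (h : gl c l s = gl c l s') : j0 c s = j0 c s' := by
  unfold j0; rw [ep_cell' hc hs hl h]

/-! ### newborn levels -/

lemma jn_le_j0 (c s : ℕ) : jn c s ≤ j0 c s := by unfold jn; split_ifs <;> omega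

lemma ep_lt_jn (c s : ℕ) : ep c s + 7 ≤ jn c s := by
  unfold jn j0
  split_ifs <;> omega

lemma nb_pos (c s : ℕ) : 0 < nb c s := pow_pos' _ _

lemma nb_le_Hb (c s : ℕ) : nb c s ≤ Hb c s := pow_le c (jn_le_j0 c s)

lemma le_pow_lg_div (c : ℕ) {s : ℕ} (hs : s ≠ 0) : CC c ^ (3 * ep c s) ≤ s :=
  (pow_le c (three_ep_le c s)).trans (lg_le c hs)

/-- the newborn level is constant on the newborn cells -/
lemma jn_cell (hc : 10 ≤ c) {s s' : ℕ} (hs : 12 ≤ lg c s)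
    (h : gl c (jn c s) s = gl c (jn c s) s') : jn c s' = jn c s ∧ lg c s' = lg c s := by
  have hs0 : s ≠ 0 := by rintro rfl; simp [lg] at hs
  have hj : jn c s ≤ lg c s := by
    have := jn_le_j0 c s
    unfold j0 ep at this
    omega
  have hlg : lg c s = lg c s' := lg_cell' hc hs0 hj h
  have hep : ep c s' = ep c s := by unfold ep; rw [hlg]
  have hj0 : j0 c s' = j0 c s := by unfold j0; rw [hep]
  refine ⟨?_, hlg.symm⟩
  have hd : CC c ^ j0 c s ∣ CC c ^ (3 * ep c s) + CC c ^ j0 c s :=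
    Dvd.dvd.add (pow_dvd' c (by unfold j0 ep; omega)) (dvd_refl _)
  have h1 := gl_le c (jn c s) s
  have h2 := lt_gl c (jn c s) s
  have h3 := gl_le c (jn c s) s'
  have h4 := lt_gl c (jn c s) s'
  have hjj := jn_le_j0 c s
  have hd' : CC c ^ jn c s ∣ CC c ^ (3 * ep c s) + CC c ^ j0 c s := (pow_dvd' c hjj).trans hd
  unfold jn
  rw [hep, hj0]
  by_cases hlt : s < CC c ^ (3 * ep c s) + CC c ^ j0 c s
  · -- the end of the first cell is an end of newborn cells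
    have h5 : s' < CC c ^ (3 * ep c s) + CC c ^ j0 c s := by
      by_contra hn
      have h6 := le_gl (c := c) hd' (show _ ≤ s' by omega)
      omega
    rw [if_pos hlt, if_pos h5]
  · have h5 : ¬ s' < CC c ^ (3 * ep c s) + CC c ^ j0 c s := by
      have h6 := le_gl (c := c) hd' (show _ ≤ s by omega)
      omega
    rw [if_neg hlt, if_neg h5]

lemma jn_mono (hc : 10 ≤ c) {s s' : ℕ} (h : s ≤ s') : jn c s ≤ jn c s' := by
  have hep : ep c s ≤ ep c s' := by
    unfold ep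
    exact Nat.div_le_div_right (lg_mono h)
  rcases Nat.eq_or_lt_of_le hep with h1 | h1
  · unfold jn j0
    rw [← h1]
    split_ifs <;> omega
  · have h2 := jn_le_j0 c s
    have h3 := ep_lt_jn c s'
    unfold j0 at h2
    omega

lemma nb_dvd_of_le (hc : 10 ≤ c) {s s' : ℕ} (h : s ≤ s') : nb c s ∣ nb c s' :=
  pow_dvd' c (jn_mono hc h)

/-! ### the slope -/

lemma sl_mono {x y : ℕ} (h : x ≤ y) : sl c x ≤ sl c y := by
  unfold sl
  have := Nat.div_le_div_right (c := CC c) h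
  omega

lemma le_sl (c x : ℕ) : x ≤ sl c x := Nat.le_add_right _ _

lemma sl_add {x : ℕ} (hx : CC c ∣ x) (y : ℕ) : sl c (x + y) = sl c x + sl c y := by
  unfold sl
  rw [Nat.add_div_of_dvd_right hx]
  omega

lemma CC_mul_sl {x : ℕ} (hx : CC c ∣ x) : CC c * sl c x = (CC c + 1) * x := by
  unfold sl
  rw [mul_add, Nat.mul_div_cancel' hx]
  ring

lemma CC_mul_sl_le (x : ℕ) : CC c * sl c x ≤ (CC c + 1) * x := by
  unfold sl
  rw [mul_add]
  have := Nat.mul_div_le x (CC c)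
  calc CC c * x + CC c * (x / CC c) ≤ CC c * x + x := by omega
    _ = _ := by ring

lemma sl_le (hc : 10 ≤ c) (x : ℕ) : sl c x ≤ x + x / 1024 := by
  unfold sl
  have := Nat.div_le_div_left (a := x) (CC_ge hc) (by norm_num)
  omega

end Pool.Agent.Helper29.ETK
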