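import Mathlib
import Pool.Agent.Helper29.ETK.Times

/-!
# E-T (MP_12a1af_nt), project T*: the rest states
-/

namespace Pool.Agent.Helper29.ETK

variable {c : ℕ}

lemma lg_eight (hc : 10 ≤ c) (t : ℕ) : lg c (8 * t) ≤ lg c t + 1 := by
  have h1 := lt_lg hc t
  have h2 : 8 * t < CC c ^ (lg c t + 1 + 1) := by
    rw [pow_succ (CC c) (lg c t + 1)]
    have := CC_ge hc
    calc 8 * t < 8 * CC c ^ (lg c t + 1) := by omega
      _ = CC c ^ (lg c t + 1) * 8 := by ring
      _ ≤ _ := Nat.mul_le_mul_left _ (by omega)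
  have := lg_lt (by omega) h2
  omega

lemma lv_le (c f : ℕ) : lv c f ≤ lg c f := Nat.findGreatest_le _

lemma cls_lt (hc : 10 ≤ c) {f t : ℕ} (ht : 1 ≤ epo c t) (h : f ≤ 8 * t) :
    cls c f < 8 * (3 * epo c t + 7) := by
  have h1 := (lg_of_epo (c := c) (t := t) rfl ht).2
  have h2 := (lg_mono (c := c) h).trans (lg_eight hc t)
  have h3 := lv_le c f
  unfold cls
  split_ifs
  · omega
  · have := Nat.mod_lt (f / CC c ^ lv c f) (show 0 < 8 by norm_num)
    omega

lemma Tq_small (hc : 10 ≤ c) {t : ℕ} (ht : 5 ≤ epo c t) : 1000 * Tq c (epo c t) ≤ t := by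
  have h1 := Tq_eq (c := c) hc (show 4 ≤ epo c t by omega)
  have h2 := epo_lower (c := c) (t := t) rfl (by omega)
  have h3 := pow_pred_le (c := c) hc (l := epo c t) (by omega)
  have h4 : CC c ^ epo c t ≤ CC c ^ (3 * epo c t + 1) := pow_le c (by omega)
  omega

lemma lt_opp_anchor (hc : 10 ≤ c) {f t : ℕ} (ht : 5 ≤ epo c t) (hf : f ≤ 8 * t) :
    t < opp c (cls c f) t + 2 * Tq c (epo c t) :=
  lt_opp_add hc ht (cls_lt hc (by omega) hf)

/-- a unit with an event which is not done is close to the time -/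
lemma alive (hc : 10 ≤ c) {x b f t : ℕ} (ht : 5 ≤ epo c t) (hx : x ≤ 7 * b) (hf : f ≤ b)
    (hn : ¬ x ≤ opp c (cls c f) t) : t < 8 * b := by
  by_contra h
  have h1 := lt_opp_anchor hc ht (show f ≤ 8 * t by omega)
  have h2 := Tq_small hc ht
  omega

lemma ep_ge_of_alive (hc : 10 ≤ c) {b t : ℕ} (ht : 5 ≤ epo c t) (h : t < 8 * b) :
    epo c t ≤ ep c b ∧ 15 ≤ lg c b := by
  have h1 := lg_of_epo (c := c) (t := t) rfl (by omega)
  have h2 := (lg_mono (c := c) h.le).trans (lg_eight hc b)
  unfold ep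
  omega

/-- the periods are short compared with the units in use -/
lemma Tq_le_Wd (hc : 10 ≤ c) {b t : ℕ} (ht : 5 ≤ epo c t) (h : t < 8 * b) :
    128 * (CC c * Tq c (epo c t)) ≤ Wd c b := by
  have h1 := Tq_eq (c := c) hc (show 4 ≤ epo c t by omega)
  have h2 := (ep_ge_of_alive hc ht h).1
  have h3 := pow_succ_pred (c := c) (l := epo c t) (by omega)
  have h4 := pow_le c h2
  calc 128 * (CC c * Tq c (epo c t)) = CC c * (128 * Tq c (epo c t)) := by ring
    _ = CC c ^ epo c t := by rw [h1, ← h3]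
    _ ≤ _ := h4

lemma Tq_le_Wd' (hc : 10 ≤ c) {b t : ℕ} (ht : 5 ≤ epo c t) (h : t < 8 * b) :
    100000 * Tq c (epo c t) ≤ Wd c b := by
  have h1 := Tq_le_Wd hc ht h
  have h2 := CC_ge hc
  have h3 : 1024 * Tq c (epo c t) ≤ CC c * Tq c (epo c t) := Nat.mul_le_mul_right _ h2
  omega

/-! ### order of the events of a unit -/

lemma exU_mono {t t' l b : ℕ} (h : t ≤ t') (hx : exU c t l b) : exU c t' l b :=
  le_trans hx (opp_mono c _ h)

lemma exD_mono {t t' l b : ℕ} (h : t ≤ t') (hx : exD c t l b) : exD c t' l b :=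
  le_trans hx (opp_mono c _ h)

lemma fin_mono {t t' b : ℕ} (h : t ≤ t') (hx : fin c t b) : fin c t' b := exU_mono h hx

lemma Ut_le_Dt (hc : 10 ≤ c) {l b : ℕ} (hb : un c b = b) (hl : 1 ≤ l) (h : ep c b ≤ l) :
    Ut c l b ≤ Dt c l b := by
  have := Ut_add_le_Dt hc hb hl h hb h rfl
  omega

lemma exU_of_exD (hc : 10 ≤ c) {t l b : ℕ} (hb : un c b = b) (hl : j0 c b < l)
    (h : exD c t l b) : exU c t l b := by
  unfold j0 at hl
  exact le_trans (Ut_le_Dt hc hb (by omega) (by omega)) h

lemma exD_of_exU_succ (hc : 10 ≤ c) {t l b : ℕ} (ht : 5 ≤ epo c t) (hl : j0 c b < l)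
    (hl2 : l ≤ lg c b) (h : exU c t (l + 1) b) : exD c t l b := by
  by_contra hn
  have h8 : 8 < l := by unfold j0 at hl; omega
  have h1 := alive hc ht (Dt_le hc (by omega) (by omega) hl2) (gl_le c l b) hn
  have h2 := Tq_le_Wd' hc ht h1
  have h3 := Dt_add_le_Ut hc (l := l) (b := b) (b' := b) (by omega) rfl
  have h4 : Wd c b ≤ CC c ^ l := pow_le c (by unfold j0 at hl; omega)
  have h5 := lt_opp_anchor hc (f := gl c l b) ht
    (by
      have := gl_le c l b
      have h6 : Ut c (l+1) b ≤ opp c (cls c (gl c (l+1) b)) t := h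
      have h7 := opp_le c (cls c (gl c (l+1) b)) t
      have h8 := le_Ut c (l+1) b
      omega)
  have h6 : Ut c (l+1) b ≤ opp c (cls c (gl c (l+1) b)) t := h
  have h7 := opp_le c (cls c (gl c (l+1) b)) t
  unfold exD at hn
  omega

lemma exU_down (hc : 10 ≤ c) {t l l' b : ℕ} (ht : 5 ≤ epo c t) (hb : un c b = b)
    (hl : j0 c b < l) (hll : l ≤ l') (hl2 : l' ≤ lg c b + 1) (h : exU c t l' b) :
    exU c t l b := by
  induction l', hll using Nat.le_induction with
  | base => exact h
  | succ n hn ih =>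
    apply ih (by omega)
    apply exU_of_exD hc hb (by omega)
    exact exD_of_exU_succ hc ht (by omega) (by omega) h

lemma jn_le_lev (t b : ℕ) (hb : 12 ≤ lg c b) : jn c b ≤ lev c t b := by
  have hj := jn_le_j0 c b
  unfold lev
  split_ifs
  · unfold j0 ep at hj; omega
  · exact le_max_left _ _

lemma lev_le (t b : ℕ) (hb : 12 ≤ lg c b) : lev c t b ≤ lg c b + 1 := by
  have hj := jn_le_j0 c b
  unfold lev
  split_ifs
  · exact le_refl _
  · apply max_le
    · unfold j0 ep at hj; omega
    · exact (Nat.findGreatest_le _).trans (by omega)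

/-- the level is the newborn level or at least `j0 + 1` -/
lemma lev_cases (t b : ℕ) (hb : 12 ≤ lg c b) : lev c t b = jn c b ∨ j0 c b < lev c t b := by
  unfold lev
  split_ifs
  · right; unfold j0 ep; omega
  · rcases Nat.eq_zero_or_pos
      (Nat.findGreatest (fun l => j0 c b < l ∧ exU c t l b) (lg c b)) with h | h
    · left; rw [h]; simp
    · right
      have h2 := Nat.findGreatest_of_ne_zero
        (P := fun l => j0 c b < l ∧ exU c t l b) (n := lg c b) rfl (by omega)
      exact lt_of_lt_of_le h2.1 (le_max_right _ _)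

lemma lev_of_fin {t b : ℕ} (h : fin c t b) : lev c t b = lg c b + 1 := by
  unfold lev; rw [if_pos h]

lemma fin_of_lev {t b : ℕ} (hb : 12 ≤ lg c b) (h : lev c t b = lg c b + 1) : fin c t b := by
  by_contra hn
  unfold lev at h
  rw [if_neg hn] at h
  have h1 : Nat.findGreatest (fun l => j0 c b < l ∧ exU c t l b) (lg c b) ≤ lg c b :=
    Nat.findGreatest_le _
  have h2 : jn c b ≤ lg c b := (jn_le_j0 c b).trans (by unfold j0 ep; omega)
  have := max_le h2 h1
  omega

/-- the up event of level `l` is done iff the level of the state is at least `l` -/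
lemma exU_iff (hc : 10 ≤ c) {t l b : ℕ} (ht : 5 ≤ epo c t) (hb : un c b = b)
    (hb12 : 12 ≤ lg c b) (hl : j0 c b < l) (hl2 : l ≤ lg c b + 1) :
    exU c t l b ↔ l ≤ lev c t b := by
  by_cases hf : fin c t b
  · rw [lev_of_fin hf]
    exact ⟨fun _ => hl2, fun _ => exU_down hc ht hb hl hl2 (le_refl _) hf⟩
  · have e : lev c t b =
        max (jn c b) (Nat.findGreatest (fun l => j0 c b < l ∧ exU c t l b) (lg c b)) := by
      unfold lev; rw [if_neg hf]
    constructor
    · intro h
      have h1 : l ≤ lg c b := by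
        rcases Nat.lt_or_ge l (lg c b + 1) with h1 | h1
        · omega
        · exfalso
          apply hf
          have : l = lg c b + 1 := by omega
          rw [this] at h
          exact h
      rw [e]
      exact (Nat.le_findGreatest h1 ⟨hl, h⟩).trans (le_max_right _ _)
    · intro h
      rw [e] at h
      set m := Nat.findGreatest (fun l => j0 c b < l ∧ exU c t l b) (lg c b) with hm
      have h1 : l ≤ m := by
        rcases le_max_iff.mp h with h1 | h1
        · have := jn_le_j0 c b
          omega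
        · exact h1
      have h2 : j0 c b < m ∧ exU c t m b :=
        Nat.findGreatest_of_ne_zero (P := fun l => j0 c b < l ∧ exU c t l b) hm.symm (by omega)
      have h3 : m ≤ lg c b := Nat.findGreatest_le _
      exact exU_down hc ht hb hl h1 (by omega) h2.2

/-- the down events which are done -/
lemma exD_iff (hc : 10 ≤ c) {t l b : ℕ} (ht : 5 ≤ epo c t) (hb : un c b = b)
    (hb12 : 12 ≤ lg c b) (hl : j0 c b < l) (hl2 : l ≤ lg c b) :
    exD c t l b ↔ l < lev c t b ∨ (l = lev c t b ∧ ¬ isP c t b) := by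
  have hU := exU_iff hc ht hb hb12 hl (by omega)
  have hU' := exU_iff hc ht hb hb12 (l := l + 1) (by omega) (by omega)
  rcases Nat.lt_trichotomy l (lev c t b) with h | h | h
  · constructor
    · intro _; exact Or.inl h
    · intro _
      exact exD_of_exU_succ hc ht hl hl2 (hU'.mpr h)
  · have hf : ¬ fin c t b := by
      intro hf
      have := lev_of_fin hf
      omega
    constructor
    · intro h1
      right
      refine ⟨h, ?_⟩
      unfold isP
      rintro (h2 | h2)
      · exact hf h2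
      · rw [h] at h1
        exact h2.2 h1
    · rintro (h1 | h1)
      · omega
      · have h2 := h1.2
        unfold isP at h2
        by_contra hn
        apply h2
        right
        rw [← h]
        exact ⟨hl, hn⟩
  · constructor
    · intro h1
      have := hU.mp (exU_of_exD hc hb hl h1)
      omega
    · rintro (h1 | h1)
      · omega
      · omega

lemma lev_mono (hc : 10 ≤ c) {t t' b : ℕ} (ht : 5 ≤ epo c t) (hb : un c b = b)
    (hb12 : 12 ≤ lg c b) (h : t ≤ t') : lev c t b ≤ lev c t' b := by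
  have ht' : 5 ≤ epo c t' := ht.trans (epo_mono h)
  rcases lev_cases (c := c) t b hb12 with h1 | h1
  · rw [h1]; exact jn_le_lev t' b hb12
  · have h2 := lev_le t b hb12
    exact (exU_iff hc ht' hb hb12 h1 h2).mp
      (exU_mono h ((exU_iff hc ht hb hb12 h1 h2).mpr (le_refl _)))

lemma isP_antitone (hc : 10 ≤ c) {t t' b : ℕ} (ht : 5 ≤ epo c t) (hb : un c b = b)
    (hb12 : 12 ≤ lg c b) (h : t ≤ t') (hl : lev c t b = lev c t' b) (hP : isP c t' b) :
    j0 c b < lev c t b → isP c t b := by
  intro hj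
  have ht' : 5 ≤ epo c t' := ht.trans (epo_mono h)
  by_cases hf : fin c t b
  · exact Or.inl hf
  have h2 := lev_le t b hb12
  have h3 : lev c t b ≤ lg c b := by
    rcases Nat.lt_or_ge (lev c t b) (lg c b + 1) with h4 | h4
    · omega
    · exact absurd (fin_of_lev hb12 (by omega)) hf
  by_contra hn
  have h4 := (exD_iff hc ht hb hb12 hj h3).mpr (Or.inr ⟨rfl, hn⟩)
  have h5 := (exD_iff hc ht' hb hb12 hj h3).mp (exD_mono h h4)
  rcases h5 with h5 | h5
  · omega
  · exact h5.2 hP

lemma not_isP_of_lev {b : ℕ} (hb12 : 12 ≤ lg c b) {t : ℕ} (h : lev c t b ≤ j0 c b) :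
    ¬ isP c t b := by
  rintro (h1 | h1)
  · have := lev_of_fin h1
    unfold j0 ep at h
    omega
  · omega

lemma j0_le_lg {b : ℕ} (hb : 12 ≤ lg c b) : j0 c b ≤ lg c b := by unfold j0 ep; omega

lemma j0_lt_of_isP {t b : ℕ} (hb12 : 12 ≤ lg c b) (h : isP c t b) : j0 c b < lev c t b := by
  rcases h with h | h
  · rw [lev_of_fin h]; unfold j0 ep; omega
  · exact h.1

lemma lev_le_of_not_isP {t b : ℕ} (hb12 : 12 ≤ lg c b) (h : ¬ isP c t b) :
    lev c t b ≤ lg c b := by
  have h1 := lev_le (c := c) t b hb12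
  rcases Nat.lt_or_ge (lev c t b) (lg c b + 1) with h4 | h4
  · omega
  · exact absurd (Or.inl (fin_of_lev hb12 (by omega))) h

/-! ### the runs -/

lemma exU_of_le (hc : 10 ≤ c) {t l b b' : ℕ} (hb : un c b = b) (hb' : un c b' = b')
    (hb12 : 12 ≤ lg c b) (hl : j0 c b < l) (hl2 : l ≤ lg c b + 1)
    (hg : gl c l b = gl c l b') (hl2' : l ≤ lg c b' + 1) (hbb : b' ≤ b)
    (hlg : lg c b' = lg c b) (h : exU c t l b) : exU c t l b' := by
  unfold exU at h ⊢
  have hW : Wd c b' = Wd c b := by unfold Wd ep; rw [hlg]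
  have h1 := Ut_diff (c := c) (l := l) (b := b') (b' := b) (by omega) hb'
    (by unfold j0 at hl; unfold ep at hl ⊢; omega) hg.symm hW hbb
  rw [← hg]
  omega

lemma exD_of_le (hc : 10 ≤ c) {t l b b' : ℕ} (hb : un c b = b) (hb' : un c b' = b')
    (hb12 : 12 ≤ lg c b) (hl : j0 c b < l)
    (hg : gl c l b = gl c l b') (hbb : b ≤ b')
    (hlg : lg c b' = lg c b) (h : exD c t l b) : exD c t l b' := by
  unfold exD at h ⊢
  have h1 := Dt_diff (c := c) (l := l) (b := b) (b' := b') (by omega) hb'
    (by unfold j0 at hl; unfold ep at hl ⊢; omega) hg hbb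
  rw [← hg]
  omega

/-- in a `P` state all lower units of the tent are in the same state -/
lemma isP_below (hc : 10 ≤ c) {t b b' : ℕ} (ht : 5 ≤ epo c t) (hb : un c b = b)
    (hb' : un c b' = b') (hb12 : 12 ≤ lg c b) (hf : ¬ fin c t b) (hP : isP c t b)
    (h1 : ga c t b ≤ b') (h2 : b' ≤ b) :
    isP c t b' ∧ lev c t b' = lev c t b ∧ gl c (lev c t b) b' = gl c (lev c t b) b := by
  have hj := j0_lt_of_isP hb12 hP
  have hle := lev_le (c := c) t b hb12
  have hlt : lev c t b ≤ lg c b := by
    rcases Nat.lt_or_ge (lev c t b) (lg c b + 1) with h4 | h4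
    · omega
    · exact absurd (fin_of_lev hb12 (by omega)) hf
  set l := lev c t b with hl
  have hb0 : b ≠ 0 := by rintro rfl; simp [lg] at hb12
  have hgb : gl c l b' = gl c l b := gl_eq (dvd_gl c l b) h1 (by have := lt_gl c l b; omega)
  have hlg : lg c b = lg c b' := lg_cell' hc hb0 hlt hgb.symm
  have hj' : j0 c b' < l := by
    have : j0 c b' = j0 c b := by unfold j0 ep; rw [hlg]
    omega
  have hUb : exU c t l b := (exU_iff hc ht hb hb12 hj (by omega)).mpr (le_of_eq hl)
  have hUb' : exU c t l b' :=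
    exU_of_le hc hb hb' hb12 hj (by omega) hgb.symm (by omega) h2 hlg.symm hUb
  have hle' : l ≤ lev c t b' := (exU_iff hc ht hb' (by omega) hj' (by omega)).mp hUb'
  have hnD : ¬ exD c t l b := by
    intro h
    rcases (exD_iff hc ht hb hb12 hj hlt).mp h with h | h
    · omega
    · exact h.2 hP
  have hnD' : ¬ exD c t l b' := fun h =>
    hnD (exD_of_le hc hb' hb (by omega) hj' hgb h2 hlg h)
  have h3 : ¬ (l < lev c t b' ∨ (l = lev c t b' ∧ ¬ isP c t b')) := fun h =>
    hnD' ((exD_iff hc ht hb' (by omega) hj' (by omega)).mpr h)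
  push Not at h3
  have h4 : lev c t b' = l := by omega
  exact ⟨h3.2 h4.symm, h4, hgb⟩

/-- in an `R` state all higher units of the cell are in the same state -/
lemma not_isP_above (hc : 10 ≤ c) {t b b' : ℕ} (ht : 5 ≤ epo c t) (hb : un c b = b)
    (hb' : un c b' = b') (hb12 : 12 ≤ lg c b) (hP : ¬ isP c t b)
    (h1 : b ≤ b') (h2 : b' < va c t b) :
    ¬ isP c t b' ∧ lev c t b' = lev c t b ∧ gl c (lev c t b) b' = gl c (lev c t b) b := by
  have hj := jn_le_lev (c := c) t b hb12
  have hlc := lev_cases (c := c) t b hb12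
  have hlt := lev_le_of_not_isP hb12 hP
  unfold va at h2
  set l := lev c t b with hl
  have hb0 : b ≠ 0 := by rintro rfl; simp [lg] at hb12
  have hgb : gl c l b' = gl c l b := gl_eq (dvd_gl c l b) (by have := gl_le c l b; omega) h2
  have hlg : lg c b = lg c b' := lg_cell' hc hb0 hlt hgb.symm
  have hjj : j0 c b' = j0 c b := by unfold j0 ep; rw [hlg]
  have hge' : l ≤ lev c t b' := by
    rcases hlc with hj1 | hj1
    · rw [hj1] at hgb ⊢
      have h3 := jn_cell hc hb12 hgb.symm
      have := jn_le_lev (c := c) t b' (by omega)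
      omega
    · have hD : exD c t l b := (exD_iff hc ht hb hb12 hj1 hlt).mpr (Or.inr ⟨hl, hP⟩)
      have hD' : exD c t l b' := exD_of_le hc hb hb' hb12 hj1 hgb.symm h1 hlg.symm hD
      exact (exU_iff hc ht hb' (by omega) (by omega) (by omega)).mp
        (exU_of_exD hc hb' (by omega) hD')
  have hjl := j0_le_lg (c := c) (b := b) hb12
  have hle' : lev c t b' ≤ l := by
    by_contra hn
    -- the level at which `b'` is ahead
    have hm : max l (j0 c b) + 1 ≤ lev c t b' := by
      rcases hlc with hj1 | hj1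
      · have h3 := jn_cell hc hb12 (s := b) (s' := b') (by rw [← hj1]; exact hgb.symm)
        rcases lev_cases (c := c) t b' (by omega) with h4 | h4
        · omega
        · have := jn_le_j0 c b
          omega
      · omega
    have hmg : gl c (max l (j0 c b) + 1) b' = gl c (max l (j0 c b) + 1) b :=
      gl_eq_of_gl_eq (by omega) hgb
    have h3 : exU c t (max l (j0 c b) + 1) b' :=
      (exU_iff hc ht hb' (by omega) (by omega) (by omega)).mpr hm
    have h4 : exU c t (max l (j0 c b) + 1) b :=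
      exU_of_le hc hb' hb (by omega) (by omega) (by omega) hmg (by omega) h1 hlg h3
    have := (exU_iff hc ht hb hb12 (by omega) (by omega)).mp h4
    omega
  have he : lev c t b' = l := by omega
  refine ⟨?_, he, hgb⟩
  rcases hlc with hj1 | hj1
  · have := jn_le_j0 c b
    exact not_isP_of_lev (by omega) (by omega)
  · have hD : exD c t l b := (exD_iff hc ht hb hb12 hj1 hlt).mpr (Or.inr ⟨hl, hP⟩)
    have hD' : exD c t l b' := exD_of_le hc hb hb' hb12 hj1 hgb.symm h1 hlg.symm hD
    rcases (exD_iff hc ht hb' (by omega) (by omega) (by omega)).mp hD' with h5 | h5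
    · omega
    · exact h5.2

/-- the finished units form an initial segment -/
lemma fin_below (hc : 10 ≤ c) {t b b' : ℕ} (h : b' ≤ b) (hf : fin c t b) : fin c t b' := by
  unfold fin exU at hf ⊢
  rw [gl_top hc] at hf ⊢
  exact (Ut_top_mono hc h).trans hf

end Pool.Agent.Helper29.ETK
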