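import Mathlib
import Pool.Agent.Helper29.ETK.Chg

/-!
# E-T (MP_12a1af_nt), project T*: the bottom of the window
-/

namespace Pool.Agent.Helper29.ETK

variable {c : ℕ}

lemma un_mono (hc : 10 ≤ c) {s s' : ℕ} (h : s ≤ s') : un c s ≤ un c s' := by
  by_contra hn
  have h1 := unit_add_le hc (un_un hc s') (un_un hc s) (by omega : un c s' < un c s)
  rw [Wd_un hc] at h1
  have h2 := lt_un c s'
  have h3 := un_le c s
  omega

/-- admissible bottoms of the window at the time `t` -/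
def adm (c t w : ℕ) : Prop :=
  0 < w ∧ nb c (w - 1) ∣ w ∧ w + 3 * Hb c (w - 1) ≤ t + nb c (w - 1)

/-- `wb` is at least the given admissible position -/
lemma le_wb {t w : ℕ} (h : adm c t w) : w ≤ wb c t :=
  Nat.le_findGreatest (by
    have h1 := h.2.2
    have h2 := nb_le_Hb c (w - 1)
    omega) h

lemma wb_large (hc : 10 ≤ c) {t : ℕ} (ht : 6 ≤ epo c t) : CC c ^ (lg c t - 1) ≤ wb c t := by
  have h1 := lg_of_epo (c := c) (t := t) rfl (by omega)
  have hp := pow_pos' c (lg c t - 1)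
  have h2 : lg c (CC c ^ (lg c t - 1) - 1) ≤ lg c t - 1 := by
    have h3 : lg c (CC c ^ (lg c t - 1) - 1) ≤ lg c (CC c ^ (lg c t - 1)) := lg_mono (by omega)
    have h4 : lg c (CC c ^ (lg c t - 1)) = lg c t - 1 := lg_eq hc (le_refl _)
      (Nat.pow_lt_pow_right (one_lt_CC hc) (by omega))
    omega
  have h5 : j0 c (CC c ^ (lg c t - 1) - 1) ≤ lg c t - 1 := by
    unfold j0 ep
    omega
  apply le_wb
  refine ⟨hp, ?_, ?_⟩
  · exact pow_dvd' c ((jn_le_j0 _ _).trans h5)
  · have h6 := pow_le c h5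
    have h7 := pow_pred_le (c := c) hc (l := lg c t) (by omega)
    have h0 : t ≠ 0 := by rintro rfl; simp [lg] at h1
    have h8 := lg_le c h0
    unfold Hb
    omega

lemma wb_spec (hc : 10 ≤ c) {t : ℕ} (ht : 6 ≤ epo c t) : adm c t (wb c t) := by
  have h1 := wb_large hc ht
  have h2 := pow_pos' c (lg c t - 1)
  exact Nat.findGreatest_of_ne_zero
    (P := fun w => 0 < w ∧ nb c (w - 1) ∣ w ∧ w + 3 * Hb c (w - 1) ≤ t + nb c (w - 1)) rfl (by
      change wb c t ≠ 0
      omega)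

lemma lg_wb (hc : 10 ≤ c) {t : ℕ} (ht : 6 ≤ epo c t) : 18 ≤ lg c (wb c t) := by
  have h1 := lg_of_epo (c := c) (t := t) rfl (by omega)
  have h2 := le_lg hc (wb_large hc ht)
  omega

/-- the window has length at least `2 Hb` -/
lemma wb_add_le (hc : 10 ≤ c) {t : ℕ} (ht : 6 ≤ epo c t) :
    wb c t + 2 * Hb c (wb c t - 1) ≤ t := by
  have h1 := (wb_spec hc ht).2.2
  have h2 := nb_le_Hb c (wb c t - 1)
  omega

lemma wb_le (hc : 10 ≤ c) {t : ℕ} (ht : 6 ≤ epo c t) : wb c t ≤ t := by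
  have := wb_add_le hc ht
  omega

lemma nb_dvd_of_pred (hc : 10 ≤ c) {w : ℕ} (hw : 12 ≤ lg c w) (h : nb c (w - 1) ∣ w) :
    nb c w ∣ w := by
  have hw0 : w ≠ 0 := by rintro rfl; simp [lg] at hw
  have h1 : lg c (w - 1) ≤ lg c w := lg_mono (by omega)
  have hjj := jn_le_j0 c w
  have hjl := j0_le_lg (c := c) (b := w) hw
  rcases Nat.eq_or_lt_of_le h1 with h2 | h2
  · have he : ep c (w - 1) = ep c w := by unfold ep; rw [h2]
    have hj0 : j0 c (w - 1) = j0 c w := by unfold j0; rw [he]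
    by_cases h3 : jn c (w - 1) = jn c w
    · have : nb c w = nb c (w - 1) := by unfold nb; rw [h3]
      rw [this]; exact h
    · -- `w` is the end of the first cell of an epoch
      unfold jn at h3
      rw [he, hj0] at h3
      have h4 : w = CC c ^ (3 * ep c w) + CC c ^ j0 c w := by
        split_ifs at h3 <;> omega
      have h5 : CC c ^ j0 c w ∣ CC c ^ (3 * ep c w) + CC c ^ j0 c w :=
        Dvd.dvd.add (pow_dvd' c (by unfold j0 ep; omega)) (dvd_refl _)
      rw [← h4] at h5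
      exact (pow_dvd' c hjj).trans h5
  · -- `w` is a power
    have h3 := lg_le c hw0
    have h4 := lt_lg hc (w - 1)
    have h5 : CC c ^ (lg c (w - 1) + 1) ≤ CC c ^ lg c w := pow_le c (by omega)
    have h6 : w = CC c ^ lg c w := by omega
    unfold nb
    conv_rhs => rw [h6]
    exact pow_dvd' c (by omega)

lemma nb_dvd_wb (hc : 10 ≤ c) {t : ℕ} (ht : 6 ≤ epo c t) : nb c (wb c t) ∣ wb c t :=
  nb_dvd_of_pred hc (by have := lg_wb hc ht; omega) (wb_spec hc ht).2.1

/-- the cell above a multiple of `nb` -/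
lemma nb_cell (hc : 10 ≤ c) {w s : ℕ} (hw : 12 ≤ lg c w) (h : nb c w ∣ w) (h1 : w ≤ s)
    (h2 : s < w + nb c w) : lg c s = lg c w ∧ jn c s = jn c w ∧ nb c s = nb c w ∧
      Hb c s = Hb c w ∧ j0 c s = j0 c w := by
  have e1 : gl c (jn c w) w = w := gl_eq h (le_refl _) (by have := nb_pos c w; unfold nb at this; omega)
  have e2 : gl c (jn c w) s = w := gl_eq h h1 h2
  obtain ⟨k1, k2⟩ := jn_cell hc hw (e1.trans e2.symm)
  have k3 : j0 c s = j0 c w := by unfold j0 ep; rw [k2]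
  exact ⟨k2, k1, by unfold nb; rw [k1], by unfold Hb; rw [k3], k3⟩

lemma lt_wb_add (hc : 10 ≤ c) {t : ℕ} (ht : 6 ≤ epo c t) : t < wb c t + 3 * Hb c (wb c t) := by
  by_contra hn
  have h1 := lg_wb hc ht
  have h2 := nb_dvd_wb hc ht
  have hp : 0 < nb c (wb c t) := pow_pos' _ _
  obtain ⟨-, -, h3, h4, -⟩ := nb_cell hc (s := wb c t + nb c (wb c t) - 1) (by omega) h2
    (by omega) (by omega)
  have h4 : wb c t + nb c (wb c t) ≤ wb c t := by
    apply le_wb
    refine ⟨by omega, ?_, ?_⟩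
    · rw [h3]
      exact Dvd.dvd.add h2 (dvd_refl _)
    · rw [h3, h4]
      omega
  omega

/-- the starts of the newborn cells are ordered -/
lemma le_start (hc : 10 ≤ c) {w x : ℕ} (hx12 : 12 ≤ lg c x) (hx : nb c x ∣ x)
    (hw : nb c (w - 1) ∣ w) (hxw : x < w) : x ≤ w - nb c (w - 1) := by
  have hw0 := nb_pos c (w - 1)
  have hle := Nat.le_of_dvd (by omega) hw
  by_contra hn
  have hlg : 12 ≤ lg c (w - 1) := hx12.trans (lg_mono (by omega))
  have e1 : gl c (jn c (w - 1)) (w - 1) = w - nb c (w - 1) := by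
    apply gl_eq
    · exact Nat.dvd_sub hw (dvd_refl _)
    · omega
    · unfold nb at hw0 hle ⊢; omega
  have e2 : gl c (jn c (w - 1)) x = w - nb c (w - 1) := by
    apply gl_eq
    · exact Nat.dvd_sub hw (dvd_refl _)
    · omega
    · unfold nb at hw0 hle ⊢; omega
  obtain ⟨k1, -⟩ := jn_cell hc hlg (e1.trans e2.symm)
  unfold nb at hx
  rw [k1] at hx
  have h3 := le_gl hx (le_refl x)
  rw [e2] at h3
  omega

/-- if the window has moved beyond `x` then the cell at `x` has been born -/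
lemma born_of_lt_wb (hc : 10 ≤ c) {t x : ℕ} (ht : 6 ≤ epo c t) (hx12 : 12 ≤ lg c x)
    (hx : nb c x ∣ x) (hxw : x < wb c t) :
    x + 3 * Hb c x ≤ t ∧ x + nb c x ≤ wb c t := by
  obtain ⟨w1, w2, w3⟩ := wb_spec hc ht
  have h1 := le_start hc hx12 hx w2 hxw
  have h2 : Hb c x ≤ Hb c (wb c t - 1) := by
    unfold Hb j0 ep
    have := Nat.div_le_div_right (c := 3) (lg_mono (c := c) (show x ≤ wb c t - 1 by omega))
    exact pow_le c (by omega)
  have h4 := Nat.le_of_dvd w1 w2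
  have h3 : x + 3 * Hb c x ≤ t := by omega
  refine ⟨h3, ?_⟩
  have hp := nb_pos c x
  obtain ⟨-, -, h5, h6, -⟩ := nb_cell hc (s := x + nb c x - 1) hx12 hx (by omega) (by omega)
  apply le_wb
  refine ⟨by omega, ?_, ?_⟩
  · rw [h5]
    exact Dvd.dvd.add hx (dvd_refl _)
  · rw [h5, h6]
    omega

/-- ends of cells below the window -/
lemma cell_le_wb (hc : 10 ≤ c) {t b l : ℕ} (ht : 6 ≤ epo c t) (hb12 : 12 ≤ lg c b)
    (hbw : b < wb c t) (hl2 : l ≤ lg c b)
    (h : l = jn c b ∨ (j0 c b < l ∧ gl c l b + 4 * CC c ^ (l - 1) + CC c ^ l ≤ t)) :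
    gl c l b + CC c ^ l ≤ wb c t := by
  have hb0 : b ≠ 0 := by rintro rfl; simp [lg] at hb12
  have hg0 := gl_pos (c := c) hb0 hl2
  have hp := pow_pos' c l
  have hgd := dvd_gl c l b
  have h1 := gl_le c l b
  rcases h with h | ⟨hj, h⟩
  · -- newborn
    have e0 : gl c (jn c b) (gl c l b) = gl c (jn c b) b := by rw [h]; exact gl_gl (le_refl _)
    obtain ⟨k1, k2⟩ := jn_cell hc hb12 (s := b) (s' := gl c l b) e0.symm
    have h2 := born_of_lt_wb hc ht (x := gl c l b) (by omega)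
      (by unfold nb; rw [k1, ← h]; exact hgd) (by omega)
    have h3 := h2.2
    unfold nb at h3
    rw [k1, ← h] at h3
    exact h3
  · have e1 : lg c (gl c l b + CC c ^ l - 1) = lg c b := by
      rw [lg_cell hc hgd hg0 (by omega : gl c l b ≤ gl c l b + CC c ^ l - 1) (by omega),
        lg_cell hc hgd hg0 h1 (lt_gl c l b)]
    have e3 : j0 c (gl c l b + CC c ^ l - 1) = j0 c b := by unfold j0 ep; rw [e1]
    have e2 : Hb c (gl c l b + CC c ^ l - 1) = CC c ^ j0 c b := by unfold Hb; rw [e3]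
    have e4 := jn_le_j0 c (gl c l b + CC c ^ l - 1)
    rw [e3] at e4
    apply le_wb
    refine ⟨by omega, ?_, ?_⟩
    · exact Dvd.dvd.add ((pow_dvd' c (by omega)).trans hgd) (pow_dvd' c (by omega))
    · rw [e2]
      have := pow_le c (show j0 c b ≤ l - 1 by omega)
      omega

end Pool.Agent.Helper29.ETK
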