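import Mathlib
import Pool.Agent.Helper29.ETK.KidA
import Pool.Agent.Helper16.ETL.Kinds

/-!
# E-T (MP_12a1af_nt), project T*: `KidOK`
-/

namespace Pool.Agent.Helper29.ETK

variable {c : ℕ}

lemma kidP_cases (c t g : ℕ) : (kidP c t g = .P g ∧ ¬ (0 < ab c t ∧ ag c t = g ∧ ak c t = 0)) ∨
    (kidP c t g = .PT g (ab c t) ∧ 0 < ab c t ∧ ag c t = g ∧ ak c t = 0) := by
  unfold kidP
  by_cases h : 0 < ab c t ∧ ag c t = g ∧ ak c t = 0
  · rw [if_pos h]
    exact Or.inr ⟨rfl, h⟩
  · rw [if_neg h]
    exact Or.inl ⟨rfl, h⟩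

lemma kidR_cases (c t v : ℕ) : (kidR c t v = .RTh v ∧ ¬ (0 < ab c t ∧ av c t = v)) ∨
    (kidR c t v = .RT v ∧ 0 < ab c t ∧ av c t = v ∧ ak c t = 2) ∨
    (kidR c t v = .R v ∧ 0 < ab c t ∧ av c t = v ∧ ak c t ≠ 2) := by
  unfold kidR
  by_cases h : 0 < ab c t ∧ av c t = v
  · rw [if_pos h]
    by_cases h2 : ak c t = 2
    · rw [if_pos h2]
      exact Or.inr (Or.inl ⟨rfl, h.1, h.2, h2⟩)
    · rw [if_neg h2]
      exact Or.inr (Or.inr ⟨rfl, h.1, h.2, h2⟩)
  · rw [if_neg h]
    exact Or.inl ⟨rfl, h⟩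

lemma kid_of_isM {t s : ℕ} (h : isM c t (un c s)) : kid c t s = kidP c t (gM c t (un c s)) := by
  rw [kid_eq, if_pos h]

lemma kid_of_not_isM {t s : ℕ} (h : ¬ isM c t (un c s)) :
    kid c t s = kidR c t (va c t (un c s)) := by
  rw [kid_eq, if_neg h]

/-- the `P` kinds -/
lemma kid_P_iff (t s g : ℕ) : (kid c t s = .P g ∨ ∃ b, kid c t s = .PT g b) ↔
    isM c t (un c s) ∧ gM c t (un c s) = g := by
  by_cases h : isM c t (un c s)
  · rw [kid_of_isM h]
    constructor
    · rintro (h1 | ⟨b, h1⟩)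
      · rcases kidP_cases c t (gM c t (un c s)) with h2 | h2
        · rw [h2.1] at h1
          exact ⟨h, by simpa using h1⟩
        · rw [h2.1] at h1
          simp at h1
      · rcases kidP_cases c t (gM c t (un c s)) with h2 | h2
        · rw [h2.1] at h1
          simp at h1
        · rw [h2.1] at h1
          simp only [Kid.PT.injEq] at h1
          exact ⟨h, h1.1⟩
    · rintro ⟨-, rfl⟩
      rcases kidP_cases c t (gM c t (un c s)) with h2 | h2
      · exact Or.inl h2.1
      · exact Or.inr ⟨_, h2.1⟩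
  · rw [kid_of_not_isM h]
    constructor
    · rintro (h1 | ⟨b, h1⟩) <;>
      · rcases kidR_cases c t (va c t (un c s)) with h2 | h2 | h2 <;>
        · rw [h2.1] at h1
          simp at h1
    · rintro ⟨h1, -⟩
      exact absurd h1 h

/-- the `R` kinds -/
lemma kid_R_iff (t s v : ℕ) : (kid c t s = .R v ∨ kid c t s = .RT v ∨ kid c t s = .RTh v) ↔
    ¬ isM c t (un c s) ∧ va c t (un c s) = v := by
  by_cases h : isM c t (un c s)
  · rw [kid_of_isM h]
    constructor
    · rintro (h1 | h1 | h1) <;>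
      · rcases kidP_cases c t (gM c t (un c s)) with h2 | h2 <;>
        · rw [h2.1] at h1
          simp at h1
    · rintro ⟨h1, -⟩
      exact absurd h h1
  · rw [kid_of_not_isM h]
    constructor
    · rintro (h1 | h1 | h1) <;>
      · rcases kidR_cases c t (va c t (un c s)) with h2 | h2 | h2 <;>
        · rw [h2.1] at h1
          simp at h1
          try exact ⟨h, h1⟩
    · rintro ⟨-, rfl⟩
      rcases kidR_cases c t (va c t (un c s)) with h2 | h2 | h2
      · exact Or.inr (Or.inr h2.1)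
      · exact Or.inr (Or.inl h2.1)
      · exact Or.inl h2.1

/-- `gM` is the anchor of a tent -/
lemma gM_gl (hc : 10 ≤ c) {t b : ℕ} (ht : 6 ≤ epo c t) (hb : un c b = b) (hM : isM c t b) :
    ∃ l, l ≤ lg c b + 1 ∧ (12 ≤ lg c b → j0 c b < l) ∧ gM c t b = gl c l b ∧ exU c t l b ∧
      (l = lg c b + 1 ∨ l ≤ lev c t b ∧ (12 ≤ lg c b → ¬ exD c (tm c t) l b)) := by
  have hE := epo_tm hc ht
  by_cases hP0 : isP c (tm c t) b
  · have hg : gM c t b = ga c (tm c t) b := by unfold gM; rw [if_pos hP0]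
    by_cases hf : fin c (tm c t) b
    · refine ⟨lg c b + 1, le_refl _, ?_, ?_, fin_mono (tm_le c t) hf, Or.inl rfl⟩
      · intro h; unfold j0 ep; omega
      · rw [hg, ga_of_fin hc hf, gl_top hc]
    · obtain ⟨-, -, hbig⟩ := big_of_not_fin hc (by omega) hf
      have h1 := j0_lt_of_isP (by omega) hP0
      have h2 := lev_le (c := c) (tm c t) b (by omega)
      have h3 := lev_mono hc (t := tm c t) (t' := t) (by omega) hb (by omega) (tm_le c t)
      have h4 := (exU_iff hc (t := tm c t) (by omega) hb (by omega) h1 h2).mpr (le_refl _)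
      refine ⟨lev c (tm c t) b, h2, fun _ => h1, hg, exU_mono (tm_le c t) h4,
        Or.inr ⟨h3, fun _ h5 => ?_⟩⟩
      have h6 : lev c (tm c t) b ≤ lg c b := by
        rcases Nat.lt_or_ge (lev c (tm c t) b) (lg c b + 1) with h6 | h6
        · omega
        · exact absurd (fin_of_lev (by omega) (by omega)) hf
      rcases (exD_iff hc (t := tm c t) (by omega) hb (by omega) h1 h6).mp h5 with h7 | h7
      · omega
      · exact h7.2 hP0
  · have hP : isP c t b := by
      rcases hM with h | h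
      · exact absurd h hP0
      · exact h
    have ha : acts c t b := fun h => hP0 (h.mpr hP)
    have hg : gM c t b = ga c t b := by unfold gM; rw [if_neg hP0]
    obtain ⟨hbig, -⟩ := acts_cases hc ht hb ha
    have h1 := j0_lt_of_isP (by omega) hP
    have h2 := lev_le (c := c) t b (by omega)
    have h4 := (exU_iff hc (by omega) hb (by omega) h1 h2).mpr (le_refl _)
    refine ⟨lev c t b, h2, fun _ => h1, hg, h4, Or.inr ⟨le_refl _, fun _ h5 => ?_⟩⟩
    have h6 : lev c t b ≤ lev c (tm c t) b := by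
      by_contra h7
      have h8 : exU c (tm c t) (lev c t b) b := exU_of_exD hc hb h1 h5
      have := (exU_iff hc (t := tm c t) (by omega) hb (by omega) h1 h2).mp h8
      omega
    have hjj := jn_le_j0 c b
    rcases (acts_cases hc ht hb ha).2.2.2.2 with h7 | h7
    · omega
    · exact h7.1 hP

lemma Wd_dvd_gM (hc : 10 ≤ c) {t b s' : ℕ} (ht : 6 ≤ epo c t) (hb : un c b = b)
    (hM : isM c t b) (h1 : gM c t b ≤ s') (h2 : s' < b + Wd c b) :
    Wd c s' ∣ gM c t b ∧ (gM c t b = 0 ∨ (Wd c s' = Wd c b ∧ ep c (gM c t b) = ep c b)) := by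
  obtain ⟨l, hl, hj, hg, -⟩ := gM_gl hc ht hb hM
  rcases Nat.eq_zero_or_pos (gM c t b) with h0 | h0
  · rw [h0]
    exact ⟨dvd_zero _, Or.inl rfl⟩
  · have hl2 : l ≤ lg c b := by
      by_contra hn
      have : l = lg c b + 1 := by omega
      rw [this, gl_top hc] at hg
      omega
    have h12 : 12 ≤ lg c b := by
      -- otherwise the unit is finished
      by_contra hn
      have hE := epo_tm hc ht
      have hf : fin c (tm c t) b := by
        by_contra hf
        have := (big_of_not_fin hc (by omega) hf).2.2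
        omega
      have : gM c t b = 0 := by
        have hP0 : isP c (tm c t) b := Or.inl hf
        unfold gM
        rw [if_pos hP0, ga_of_fin hc hf]
      omega
    have hj' : ep c b + 8 < l := hj h12
    have h3 := un_add_le hb (show ep c b ≤ l by omega)
    rw [hg] at h0 h1 ⊢
    have e1 := lg_cell hc (dvd_gl c l b) h0 h1 (by omega)
    have e2 := lg_cell hc (dvd_gl c l b) h0 (gl_le c l b) (lt_gl c l b)
    have e3 : ep c s' = ep c b := by unfold ep; rw [e1, e2]
    have e4 : ep c (gl c l b) = ep c b := by unfold ep; rw [e2]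
    refine ⟨?_, Or.inr ⟨by unfold Wd; rw [e3], e4⟩⟩
    exact (Wd_dvd_pow (by omega)).trans (dvd_gl c l b)

/-- positions of the `P` run -/
lemma isM_below' (hc : 10 ≤ c) {t s s' : ℕ} (ht : 6 ≤ epo c t) (hM : isM c t (un c s))
    (h1 : gM c t (un c s) ≤ s') (h2 : s' ≤ s) :
    isM c t (un c s') ∧ gM c t (un c s') = gM c t (un c s) := by
  apply isM_below hc ht (un_un hc s) (un_un hc s') hM
  · apply le_un _ h1
    apply (Wd_dvd_gM hc ht (un_un hc s) hM h1 _).1
    have := lt_un c s
    rw [Wd_un hc]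
    omega
  · exact un_mono hc h2

lemma gM_le (hc : 10 ≤ c) {t b : ℕ} (ht : 6 ≤ epo c t) (hb : un c b = b) (hM : isM c t b) :
    gM c t b ≤ b := by
  obtain ⟨l, -, -, hg, -⟩ := gM_gl hc ht hb hM
  rw [hg]
  exact gl_le _ _ _

/-- positions of the `R` run -/
lemma not_isM_above' (hc : 10 ≤ c) {t s s' : ℕ} (ht : 6 ≤ epo c t) (hM : ¬ isM c t (un c s))
    (h1 : s ≤ s') (h2 : s' < va c t (un c s)) :
    ¬ isM c t (un c s') ∧ va c t (un c s') = va c t (un c s) :=
  not_isM_above hc ht (un_un hc s) (un_un hc s') hM (un_mono hc h1)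
    (lt_of_le_of_lt (un_le c s') h2)

/-- a unit follows the unit `b` below the top of the cell -/
lemma un_next (hc : 10 ≤ c) {b v l : ℕ} (hb : un c b = b) (hb12 : 12 ≤ lg c b)
    (hl : jn c b ≤ l) (hl2 : l ≤ lg c b) (hv : v = gl c l b + CC c ^ l) :
    un c (b + Wd c b) = b + Wd c b ∧ (∀ s, b + Wd c b ≤ s → s ≤ v → Wd c s ∣ v ∧
      Wd c (b + Wd c b) ∣ v) := by
  have hb0 : b ≠ 0 := by rintro rfl; simp [lg] at hb12
  have h1 := lt_lg hc b
  have h2 : Wd c b ∣ CC c ^ (lg c b + 1) := Wd_dvd_pow (by have := ep_le_lg c b; omega)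
  have h3 := un_eq_iff.mp hb
  have h4 : b + Wd c b ≤ CC c ^ (lg c b + 1) := by
    obtain ⟨k, hk⟩ := h2
    obtain ⟨m, hm⟩ := h3
    have h5 : m < k := by
      have : Wd c b * m < Wd c b * k := by rw [← hk, ← hm]; exact h1
      exact lt_of_mul_lt_mul_left this (Nat.zero_le _)
    rw [hk]
    calc b + Wd c b = Wd c b * m + Wd c b := by rw [← hm]
      _ = Wd c b * (m + 1) := by ring
      _ ≤ _ := Nat.mul_le_mul_left _ h5
  have hvle : v ≤ CC c ^ (lg c b + 1) := by
    rw [hv]
    have := gl_add_le (c := c) (l := l) (l' := lg c b + 1) (s := b) (by omega)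
    rw [gl_top hc] at this
    omega
  have hep : ∀ s, s ≤ v → ep c s ≤ jn c b := by
    intro s hs
    have e1 : lg c s ≤ lg c (CC c ^ (lg c b + 1)) := lg_mono (by omega)
    have e2 : lg c (CC c ^ (lg c b + 1)) = lg c b + 1 :=
      lg_eq hc (le_refl _) (Nat.pow_lt_pow_right (one_lt_CC hc) (by omega))
    have e3 := ep_lt_jn c b
    unfold ep at e3 ⊢
    omega
  have hdv : ∀ s, s ≤ v → Wd c s ∣ v := by
    intro s hs
    rw [hv]
    have e := (hep s hs).trans hl
    exact Dvd.dvd.add ((Wd_dvd_pow e).trans (dvd_gl c l b)) (Wd_dvd_pow e)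
  refine ⟨?_, ?_⟩
  · rw [un_eq_iff]
    rcases Nat.eq_or_lt_of_le h4 with h5 | h5
    · rw [h5]
      apply Wd_dvd_pow
      have e2 : lg c (CC c ^ (lg c b + 1)) = lg c b + 1 :=
        lg_eq hc (le_refl _) (Nat.pow_lt_pow_right (one_lt_CC hc) (by omega))
      unfold ep
      omega
    · have h6 : lg c (b + Wd c b) = lg c b := by
        apply lg_eq hc _ h5
        have := lg_le c hb0
        omega
      have h7 : Wd c (b + Wd c b) = Wd c b := by
        generalize b + Wd c b = x at h6 ⊢
        unfold Wd ep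
        rw [h6]
      rw [h7]
      exact Dvd.dvd.add h3 (dvd_refl _)
  · intro s hs hsv
    exact ⟨hdv s hsv, hdv _ (by omega)⟩

/-- the `R` part of the cell in transition -/
lemma kid_above_acts (hc : 10 ≤ c) {t b : ℕ} (ht : 6 ≤ epo c t) (hb : un c b = b)
    (h : acts c t b) {s : ℕ} (h1 : b + Wd c b ≤ s) (h2 : s < vM c t b) :
    ¬ isM c t (un c s) ∧ va c t (un c s) = vM c t b ∧
    ¬ isP c t (un c s) ∧ ¬ isP c (tm c t) (un c s) ∧ va c (tm c t) (un c s) = vM c t b := by
  have h12 := (acts_cases hc ht hb h).1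
  obtain ⟨-, -, -, -, l, hl1, hl2, hl3, -⟩ := acts_pos hc ht hb h
  obtain ⟨hn1, -⟩ := un_next hc hb (by omega) hl1 hl2 hl3
  have h3 : b + Wd c b ≤ un c s := by
    rw [← hn1]
    exact un_mono hc h1
  have hW := Wd_pos c b
  have := acts_above hc ht hb (un_un hc s) h (by omega) (lt_of_le_of_lt (un_le c s) h2)
  refine ⟨?_, this.2.2.1, this.1, this.2.1, this.2.2.2⟩
  rintro (h4 | h4)
  · exact this.2.1 h4
  · exact this.1 h4

theorem kidOK (hc : 10 ≤ c) {t : ℕ} (ht : 6 ≤ epo c t) : ETS.KidOK c t where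
  wb0 := (wb_spec hc ht).1
  wbt := wb_le hc ht
  P := by
    intro s g hs h
    obtain ⟨hM, hg⟩ := (kid_P_iff t s g).mp (Or.inl h)
    have hgs : g ≤ s := by
      rw [← hg]
      exact (gM_le hc ht (un_un hc s) hM).trans (un_le c s)
    refine ⟨hgs, fun s' h1 h2 => ?_⟩
    obtain ⟨hM', hg'⟩ := isM_below' hc ht hM (by omega) h2
    rw [kid_of_isM hM', hg', ← kid_of_isM hM, h]
  PT := by
    intro s g b hs h
    obtain ⟨hM, hg⟩ := (kid_P_iff t s g).mp (Or.inr ⟨b, h⟩)
    have hgs : g ≤ s := by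
      rw [← hg]
      exact (gM_le hc ht (un_un hc s) hM).trans (un_le c s)
    rw [kid_of_isM hM, hg] at h
    rcases kidP_cases c t g with h2 | h2
    · rw [h2.1] at h
      simp at h
    · obtain ⟨h3, h0, hag, hak⟩ := h2
      rw [h3] at h
      simp only [Kid.PT.injEq, true_and] at h
      obtain ⟨hub, hact⟩ := ab_spec hc ht h0
      rw [h] at hub hact h0
      have hagb : gM c t b = g := by rw [← h, ← ag_eq, hag]
      have havb : av c t = vM c t b := by rw [av_eq, h]
      obtain ⟨p1, p2, p3, p4, -⟩ := acts_pos hc ht hub hact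
      have hle := le_of_gM_eq hc ht hub (un_un hc s) hact hM (by rw [hg, hagb])
      have hsb : s < b + Wd c b := by
        have h5 := lt_un c s
        rcases Nat.eq_or_lt_of_le hle with h6 | h6
        · have : Wd c s = Wd c b := by rw [← h6, Wd_un hc]
          omega
        · have := unit_add_le hc (un_un hc s) hub h6
          rw [Wd_un hc] at this
          omega
      refine ⟨by omega, hgs, hsb, by omega, by omega, ?_, ?_⟩
      · intro s' h5 h6
        have hMb : isM c t (un c b) := by rw [hub]; exact isM_of_acts hact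
        have h7 : isM c t (un c s') ∧ gM c t (un c s') = g := by
          rcases Nat.lt_or_ge b s' with h8 | h8
          · -- same unit
            have h9 : un c s' = b := by
              by_contra hne
              have h10 : b ≤ un c s' := by
                have := un_mono hc h8.le
                rwa [hub] at this
              have h11 := unit_add_le hc hub (un_un hc s') (by omega)
              have := un_le c s'
              omega
            rw [h9]
            exact ⟨isM_of_acts hact, hagb⟩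
          · have h9 := isM_below' hc ht hMb (s' := s') (by rw [hub, hagb]; exact h5) h8
            rw [hub, hagb] at h9
            exact h9
        rw [kid_of_isM h7.1, h7.2, h3, h]
      · intro s' h5 h6
        rw [havb] at h6 ⊢
        obtain ⟨k1, k2, -⟩ := kid_above_acts hc ht hub hact h5 h6
        rw [kid_of_not_isM k1, k2]
        unfold kidR
        rw [if_pos ⟨by omega, by rw [havb]⟩, if_neg (by omega)]
  R := by
    intro s v hs h
    obtain ⟨hM, hv⟩ := (kid_R_iff t s v).mp (Or.inl h)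
    have hP : ¬ isP c t (un c s) := fun h1 => hM (Or.inr h1)
    have h1 := va_pos hc ht (un_un hc s) (lt_of_le_of_lt (un_le c s) hs) hP
    rw [hv, Wd_un hc] at h1
    have h2 := lt_un c s
    refine ⟨by omega, h1.2.1, fun s' h3 h4 => ?_⟩
    obtain ⟨k1, k2⟩ := not_isM_above' hc ht hM h3 (by omega)
    rw [kid_of_not_isM k1, k2, ← kid_of_not_isM hM, h]
  RT := by
    intro s v hs h
    obtain ⟨hM, hv⟩ := (kid_R_iff t s v).mp (Or.inr (Or.inl h))
    have hP : ¬ isP c t (un c s) := fun h1 => hM (Or.inr h1)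
    have h1 := va_pos hc ht (un_un hc s) (lt_of_le_of_lt (un_le c s) hs) hP
    rw [hv, Wd_un hc] at h1
    have h2 := lt_un c s
    refine ⟨by omega, h1.2.1, fun s' h3 h4 => ?_⟩
    obtain ⟨k1, k2⟩ := not_isM_above' hc ht hM h3 (by omega)
    rw [kid_of_not_isM k1, k2, ← kid_of_not_isM hM, h]
  RTh := by
    intro s v hs h
    obtain ⟨hM, hv⟩ := (kid_R_iff t s v).mp (Or.inr (Or.inr h))
    have hP : ¬ isP c t (un c s) := fun h1 => hM (Or.inr h1)
    have h1 := va_pos hc ht (un_un hc s) (lt_of_le_of_lt (un_le c s) hs) hP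
    rw [hv, Wd_un hc] at h1
    have h2 := lt_un c s
    refine ⟨by omega, h1.2.1, fun s' h3 h4 => ?_⟩
    obtain ⟨k1, k2⟩ := not_isM_above' hc ht hM h3 (by omega)
    rw [kid_of_not_isM k1, k2, ← kid_of_not_isM hM, h]

end Pool.Agent.Helper29.ETK
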