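import Mathlib
import Pool.Agent.Helper29.ETK.KidD

/-!
# E-T (MP_12a1af_nt), project T*: two close times
-/

namespace Pool.Agent.Helper29.ETK

open Pool.Agent.ETS

variable {c : ℕ}

lemma kk_succ (E : ℕ) : kk (E + 1) ≤ kk E + 1 := by
  unfold kk
  apply Nat.clog_le_of_le_pow
  rw [pow_succ]
  have h := Nat.le_pow_clog (show 1 < 2 by norm_num) (8 * (3 * E + 10))
  omega

lemma Gq_mono_succ (hc : 10 ≤ c) {E : ℕ} (hE : 4 ≤ E) : Gq c E ∣ Gq c (E + 1) := by
  unfold Gq
  apply pow_dvd_pow
  have h1 := kk_succ E
  have h2 : c * (E + 1 - 1) = c * (E - 1) + c := by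
    obtain ⟨m, rfl⟩ : ∃ m, E = m + 1 := ⟨E - 1, by omega⟩
    simp only [Nat.add_sub_cancel]
    ring
  omega

lemma Gq_dvd_of_le (hc : 10 ≤ c) {E E' : ℕ} (hE : 4 ≤ E) (h : E ≤ E') : Gq c E ∣ Gq c E' := by
  induction E', h using Nat.le_induction with
  | base => exact dvd_refl _
  | succ n hn ih => exact ih.trans (Gq_mono_succ hc (by omega))

lemma Gq_mono (hc : 10 ≤ c) {E E' : ℕ} (hE : 4 ≤ E) (h : E ≤ E') : Gq c E ≤ Gq c E' :=
  Nat.le_of_dvd (Gq_pos c E') (Gq_dvd_of_le hc hE h)

lemma sst_eq_of (hc : 10 ≤ c) {t x : ℕ} (hx : 8 * Gq c (epo c t) ∣ x) (h1 : x ≤ t)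
    (h2 : t < x + 8 * Gq c (epo c t)) : sst c t = x ∧ t % (8 * Gq c (epo c t)) = t - x := by
  have hG : 0 < 8 * Gq c (epo c t) := by have := Gq_pos c (epo c t); omega
  obtain ⟨m, rfl⟩ := hx
  have h3 : t % (8 * Gq c (epo c t)) = t - 8 * Gq c (epo c t) * m := by
    generalize 8 * Gq c (epo c t) = g at *
    obtain ⟨r, hr⟩ : ∃ r, r = t - g * m := ⟨_, rfl⟩
    have e : t = r + g * m := by omega
    rw [← hr, e, Nat.add_mul_mod_self_left]
    exact Nat.mod_eq_of_lt (by omega)
  refine ⟨?_, h3⟩
  unfold sst
  rw [h3]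
  omega

lemma sameO_of_slot (hc : 10 ≤ c) {K K' : ℕ} (hE : 4 ≤ epo c K) (h1 : K' ≤ K)
    (h2 : sst c K ≤ K') : sameO c K' K := by
  intro k
  have h3 := opp_mono c k h1
  by_contra hne
  have h4 : opp c k K ≠ 0 := by omega
  have h5 := opp_isOpp h4
  have h6 := opp_le c k K
  have h7 : K' < opp c k K := by
    by_contra h8
    have := le_opp h5 (show opp c k K ≤ K' by omega)
    omega
  have h8 := isOpp_slot hc hE h5 (by omega) h6
  omega

/-- the two cases for close times -/
lemma near_cases (hc : 10 ≤ c) {K K' : ℕ} (hE : 7 ≤ epo c K) (h1 : K' ≤ K)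
    (h2 : K < K' + gth c K) :
    epo c K ≤ epo c K' + 1 ∧
    ((sameO c K' K ∧ (ph c K' = ph c K ∨ ph c K = ph c K' + 1) ∧
      (ph c K < 3 → tm c K' = tm c K)) ∨
    (3 ≤ ph c K' ∧ ph c K = 0 ∧ sameO c K' (tm c K))) := by
  set E := epo c K with hEd
  have hG0 := Gq_pos c E
  have hg : gth c K = Gq c (E - 1) := rfl
  have hgG : Gq c (E - 1) ≤ Gq c E := Gq_mono hc (by omega) (by omega)
  have hTG := Gq_le c E
  have hTs := Tq_small (c := c) (t := K) hc (by omega)
  rw [← hEd] at hTs
  have hE' : E ≤ epo c K' + 1 := by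
    have h4 : K ≤ 8 * K' := by omega
    have h5 := (lg_mono (c := c) h4).trans (lg_eight hc K')
    rw [hEd]
    unfold epo
    omega
  refine ⟨hE', ?_⟩
  have hs1 := sst_le c K
  have hs2 := lt_sst c K
  have hs3 := dvd_sst c K
  rw [← hEd] at hs2 hs3
  rcases Nat.lt_or_ge K' (sst c K) with h3 | h3
  · -- the previous slot
    right
    set x := sst c K - 1 with hx
    have hx1 : K' ≤ x := by omega
    have hepx : E ≤ epo c x + 1 := hE'.trans (by
      have := epo_mono (c := c) hx1
      omega)
    have hepx2 : epo c x ≤ E := epo_mono (by omega)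
    have hGx : Gq c (E - 1) ≤ Gq c (epo c x) := Gq_mono hc (by omega) (by omega)
    have hGx0 := Gq_pos c (epo c x)
    have hdx : 8 * Gq c (epo c x) ∣ sst c K :=
      (Nat.mul_dvd_mul_left 8 (Gq_dvd_of_le hc (by omega) hepx2)).trans hs3
    have hdx2 : 8 * Gq c (epo c x) ∣ x + 1 - 8 * Gq c (epo c x) := by
      have : x + 1 = sst c K := by omega
      rw [this]
      exact Nat.dvd_sub hdx (dvd_refl _)
    have hge : 8 * Gq c (epo c x) ≤ x + 1 := by
      have : x + 1 = sst c K := by omega
      rw [this]
      exact Nat.le_of_dvd (by omega) hdx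
    obtain ⟨s1, s2⟩ := sst_eq_of hc hdx2 (by omega) (by omega)
    have hK'x : sst c x ≤ K' := by omega
    have hepK' : epo c K' = epo c x := by
      have a := epo_mono (c := c) hK'x
      rw [epo_sst hc (show 4 ≤ epo c x by omega)] at a
      have b := epo_mono (c := c) hx1
      omega
    have hdK' : 8 * Gq c (epo c K') ∣ x + 1 - 8 * Gq c (epo c x) := by
      rw [hepK']; exact hdx2
    obtain ⟨t1, t2⟩ := sst_eq_of hc hdK' (by omega) (by rw [hepK']; omega)
    have hphK' : 3 ≤ ph c K' := by
      unfold ph
      rw [t2, hepK', Nat.le_div_iff_mul_le hGx0]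
      omega
    have hphK : ph c K = 0 := by
      unfold ph
      rw [← hEd]
      have e : K % (8 * Gq c E) = K - sst c K := by
        unfold sst
        rw [← hEd]
        have := Nat.mod_le K (8 * Gq c E)
        omega
      rw [e, Nat.div_eq_of_lt]
      omega
    refine ⟨hphK', hphK, ?_⟩
    have e : tm c K = x := by
      unfold tm
      rw [if_pos (by omega)]
    rw [e]
    exact sameO_of_slot hc (by omega) hx1 hK'x
  · left
    have hepK' : epo c K' = E := by
      have a := epo_mono (c := c) h3
      rw [epo_sst hc (show 4 ≤ epo c K by omega)] at a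
      have b := epo_mono (c := c) h1
      omega
    have hdK' : 8 * Gq c (epo c K') ∣ sst c K := by rw [hepK']; exact hs3
    obtain ⟨t1, t2⟩ := sst_eq_of hc hdK' h3 (by rw [hepK']; omega)
    have e : K % (8 * Gq c E) = K - sst c K := by
      unfold sst
      rw [← hEd]
      have := Nat.mod_le K (8 * Gq c E)
      omega
    refine ⟨sameO_of_slot hc (by omega) h1 h3, ?_, ?_⟩
    · have p1 : ph c K' = (K' - sst c K) / Gq c E := by
        unfold ph
        rw [t2, hepK']
      have p2 : ph c K = (K - sst c K) / Gq c E := by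
        unfold ph
        rw [← hEd, e]
      have p3 : ph c K' ≤ ph c K := by
        rw [p1, p2]
        exact Nat.div_le_div_right (by omega)
      have p4 : ph c K ≤ ph c K' + 1 := by
        rw [p1, p2]
        calc (K - sst c K) / Gq c E ≤ ((K' - sst c K) + Gq c E) / Gq c E :=
              Nat.div_le_div_right (by omega)
          _ = _ := Nat.add_div_right _ hG0
      omega
    · intro h4
      have h5 : ph c K' < 3 := by
        have p1 : ph c K' = (K' - sst c K) / Gq c E := by
          unfold ph
          rw [t2, hepK']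
        have p2 : ph c K = (K - sst c K) / Gq c E := by
          unfold ph
          rw [← hEd, e]
        have p3 : ph c K' ≤ ph c K := by
          rw [p1, p2]
          exact Nat.div_le_div_right (by omega)
        omega
      unfold tm
      rw [if_pos h4, if_pos h5, t1]

/-! ### the window -/

lemma adm_mono {K K' w : ℕ} (h : K' ≤ K) (hw : adm c K' w) : adm c K w :=
  ⟨hw.1, hw.2.1, by have := hw.2.2; omega⟩

lemma wb_mono (hc : 10 ≤ c) {K K' : ℕ} (hE : 6 ≤ epo c K') (h : K' ≤ K) :
    wb c K' ≤ wb c K := le_wb (adm_mono h (wb_spec hc hE))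

lemma G_small (hc : 10 ≤ c) {K b : ℕ} (hE : 5 ≤ epo c K) (h : K < 8 * b) :
    100 * (1024 * Gq c (epo c K)) ≤ Wd c b := by
  have h1 := Tq_le_Wd' hc hE h
  have h2 := Gq_le c (epo c K)
  omega

lemma Wd_le_nb (hc : 10 ≤ c) (b : ℕ) : 1024 * (CC c * Wd c b) ≤ nb c b := by
  have h0 : CC c * Wd c b = CC c ^ (ep c b + 1) := by unfold Wd; rw [pow_succ]; ring
  have h2 := pow_pred_le (c := c) hc (l := ep c b + 2) (by omega)
  have h3 : CC c ^ (ep c b + 2) ≤ nb c b := pow_le c (by have := ep_lt_jn c b; omega)
  have e : ep c b + 2 - 1 = ep c b + 1 := by omega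
  rw [e] at h2
  rw [h0]
  omega

lemma nb_mono (hc : 10 ≤ c) {b b' : ℕ} (h : b ≤ b') : nb c b ≤ nb c b' :=
  pow_le c (jn_mono hc h)

/-- a phase is much shorter than a newborn cell -/
lemma G_le_nb (hc : 10 ≤ c) {K b : ℕ} (hE : 5 ≤ epo c K) (h : K < 32 * b) :
    100 * (1024 * Gq c (epo c K)) ≤ nb c b := by
  have h1 : 100 * (1024 * Gq c (epo c K)) ≤ Wd c (8 * b) := G_small hc hE (by omega)
  have h2 : Wd c (8 * b) ≤ CC c * Wd c b := by
    have e := lg_eight hc b
    unfold Wd ep
    calc CC c ^ (lg c (8 * b) / 3) ≤ CC c ^ (lg c b / 3 + 1) := pow_le c (by omega)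
      _ = _ := by rw [pow_succ]; ring
  have h3 := Wd_le_nb hc b
  omega

/-- close times: the window does not move, or moves by one newborn cell -/
lemma wb_near (hc : 10 ≤ c) {K K' : ℕ} (hE : 7 ≤ epo c K) (h1 : K' ≤ K)
    (h2 : K < K' + gth c K) :
    wb c K = wb c K' ∨ (wb c K = wb c K' + nb c (wb c K') ∧
      wb c K' + 3 * Hb c (wb c K') ≤ K) := by
  have hnc := (near_cases hc hE h1 h2).1
  have hK' : 6 ≤ epo c K' := by omega
  have hlt := lt_wb_add hc hK'
  have hd := nb_dvd_wb hc hK'
  have hHw := Hb_le_wb hc hK'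
  have hlg := lg_wb hc hK'
  have hmono := wb_mono hc hK' h1
  have hG := G_le_nb hc (K := K') (b := wb c K') (by omega) (by omega)
  have hgth : gth c K ≤ Gq c (epo c K') := by
    unfold gth
    exact Gq_mono hc (by omega) (by omega)
  have hp := nb_pos c (wb c K')
  rcases Nat.eq_or_lt_of_le hmono with h3 | h3
  · left; exact h3.symm
  right
  have hb := born_of_lt_wb hc (t := K) (by omega) (by omega) hd h3
  refine ⟨?_, hb.1⟩
  by_contra hne
  have h4 : wb c K' + nb c (wb c K') < wb c K := by have := hb.2; omega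
  obtain ⟨-, -, h5, -⟩ := nb_cell hc (s := wb c K' + nb c (wb c K') - 1) (by omega) hd
    (by omega) (by omega)
  have h6 : 12 ≤ lg c (wb c K' + nb c (wb c K')) := by
    have := lg_mono (c := c) (show wb c K' ≤ wb c K' + nb c (wb c K') by omega)
    omega
  have h7 : nb c (wb c K' + nb c (wb c K')) ∣ wb c K' + nb c (wb c K') := by
    apply nb_dvd_of_pred hc h6
    rw [h5]
    exact Dvd.dvd.add hd (dvd_refl _)
  have hb2 := (born_of_lt_wb hc (t := K) (by omega) h6 h7 h4).1
  have h8 : Hb c (wb c K') ≤ Hb c (wb c K' + nb c (wb c K')) := by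
    unfold Hb j0 ep
    have := Nat.div_le_div_right (c := 3)
      (lg_mono (c := c) (show wb c K' ≤ wb c K' + nb c (wb c K') by omega))
    exact pow_le c (by omega)
  omega

/-- the newborn cell at the time of its birth -/
lemma kid_newborn (hc : 10 ≤ c) {K w s : ℕ} (hE : 6 ≤ epo c K) (hw12 : 12 ≤ lg c w)
    (hd : nb c w ∣ w) (hK : K < w + 4 * Hb c w) (h1 : w ≤ s) (h2 : s < w + nb c w)
    (hwb : w + nb c w ≤ wb c K) :
    kid c K s = .RTh (w + nb c w) := by
  have hE0 := epo_tm hc hE
  have htt := tm_le c K
  have hw0 : w ≠ 0 := by rintro rfl; simp [lg] at hw12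
  -- the unit
  have hWd : Wd c w ∣ w := by
    refine Dvd.dvd.trans ?_ hd
    unfold Wd nb
    exact pow_dvd' c (by have := ep_lt_jn c w; omega)
  have hu : w ≤ un c s := by
    have := un_mono hc h1
    rwa [un_eq_iff.mpr hWd] at this
  have hus := un_le c s
  -- units of the newborn cell
  have hcell : ∀ b, un c b = b → w ≤ b → b < w + nb c w → ∀ τ, 5 ≤ epo c τ → τ ≤ K →
      lev c τ b = jn c b ∧ ¬ isP c τ b ∧ gl c (jn c b) b = w ∧ jn c b = jn c w ∧
        12 ≤ lg c b := by
    intro b hub hb1 hb2 τ hτ hτK
    obtain ⟨e1, e2, -, e4, e5⟩ := nb_cell hc (w := w) (s := b) hw12 hd hb1 hb2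
    have hjj := jn_le_j0 c b
    have hnot : ¬ exU c τ (j0 c b + 1) b := by
      intro h
      unfold exU at h
      have a := opp_le c (cls c (gl c (j0 c b + 1) b)) τ
      have d : b + 5 * CC c ^ j0 c b ≤ Ut c (j0 c b + 1) b := by
        unfold Ut
        have := le_sl c (b + Wd c b - gl c (j0 c b + 1) b)
        have := gl_le c (j0 c b + 1) b
        rw [Nat.add_sub_cancel]
        omega
      have e : CC c ^ j0 c b = Hb c w := by rw [e5]; rfl
      rw [e] at d
      omega
    have hlev : lev c τ b = jn c b := by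
      rcases lev_cases (c := c) τ b (by omega) with h3 | h3
      · exact h3
      · exfalso
        apply hnot
        exact (exU_iff hc hτ hub (by omega) (by omega)
          (by have := j0_le_lg (c := c) (b := b) (by omega); omega)).mpr (by omega)
    refine ⟨hlev, not_isP_of_lev (by omega) (by omega), ?_, e2, by omega⟩
    apply gl_eq
    · rw [e2]; exact hd
    · exact hb1
    · rw [e2]; exact hb2
  obtain ⟨l1, l2, l3, l5, l6⟩ := hcell _ (un_un hc s) hu (by omega) K (by omega) (le_refl _)
  obtain ⟨-, l4, -⟩ := hcell _ (un_un hc s) hu (by omega) (tm c K) (by omega) htt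
  have hM : ¬ isM c K (un c s) := by
    rintro (h | h)
    · exact l4 h
    · exact l2 h
  have hva : va c K (un c s) = w + nb c w := by
    unfold va
    rw [l1, l3, l5]
    rfl
  rw [kid_of_not_isM hM, hva]
  rcases kidR_cases c K (w + nb c w) with h3 | h3
  · exact h3.1
  · exfalso
    have h4 : 0 < ab c K ∧ av c K = w + nb c w := by
      rcases h3 with h3 | h3
      · exact ⟨h3.2.1, h3.2.2.1⟩
      · exact ⟨h3.2.1, h3.2.2.1⟩
    obtain ⟨hub, hact⟩ := ab_spec hc hE h4.1
    have hvM : vM c K (ab c K) = w + nb c w := by rw [← av_eq]; exact h4.2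
    obtain ⟨p1, p2, p3, p4, l, q1, q2, q3, -, -, -, q4⟩ := acts_pos hc hE hub hact
    have h12 := (acts_cases hc hE hub hact).1
    have hblt := lt_of_va_eq hc hE hub (un_un hc s) hact hM (by rw [hva, hvM])
    -- the acting unit is below the newborn cell
    have hbw : ab c K < w := by
      by_contra hn
      obtain ⟨-, m2, -⟩ := hcell _ hub (by omega) (by omega) K (by omega) (le_refl _)
      obtain ⟨-, m4, -⟩ := hcell _ hub (by omega) (by omega) (tm c K) (by omega) htt
      exact hact ⟨fun h => absurd h m4, fun h => absurd h m2⟩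
    rw [hvM] at q3
    -- the cell is longer than the newborn cell
    have h6 : ¬ CC c ^ l ≤ nb c w := by
      intro h7
      have := gl_le c l (ab c K)
      omega
    rcases q4 with q4 | q4
    · apply h6
      rw [q4]
      exact nb_mono hc hbw.le
    · have h5 : gl c l (ab c K) + 5 * CC c ^ (l - 1) + CC c ^ l ≤ Dt c l (ab c K) := by
        unfold Dt
        have := le_sl c (2 * CC c ^ l + gl c l (ab c K) - ab c K)
        have := lt_gl c l (ab c K)
        omega
      -- `w` is inside of a cell of level `l`, so `l` is larger than the newborn level `j0`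
      have h8 : gl c l w = gl c l (ab c K) := by
        apply gl_eq (dvd_gl _ _ _)
        · have := gl_le c l (ab c K); omega
        · omega
      have hab0 : ab c K ≠ 0 := by omega
      have h9 : lg c (ab c K) = lg c w := lg_cell' hc hab0 q2 h8.symm
      have h10 : j0 c (ab c K) = j0 c w := by unfold j0 ep; rw [h9]
      have h7 : Hb c w ≤ CC c ^ (l - 1) := by
        unfold Hb
        exact pow_le c (by omega)
      have hp := nb_pos c w
      omega

/-- the top of the cell in transition is also below the window a little earlier -/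
lemma top_le_wb (hc : 10 ≤ c) {K K' b : ℕ} (hE : 7 ≤ epo c K) (h1 : K' ≤ K)
    (h2 : K < K' + gth c K) (hb : un c b = b) (h : acts c K b) :
    vM c K b ≤ wb c K' := by
  have hnc := (near_cases hc hE h1 h2).1
  have hK' : 6 ≤ epo c K' := by omega
  obtain ⟨p1, p2, p3, p4, l, q1, q2, q3, -, q6, -, q4⟩ := acts_pos hc (by omega) hb h
  obtain ⟨h12, h8, -, -, hcase⟩ := acts_cases hc (by omega) hb h
  have hgth : gth c K ≤ Gq c (epo c K) := by
    unfold gth
    exact Gq_mono hc (by omega) (by omega)
  have hhalf := tm_ge_half hc (show 6 ≤ epo c K by omega)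
  have hG := G_le_nb hc (K := K) (b := b) (by omega) (by omega)
  have hnH := nb_le_Hb c b
  have hbound : b + 5 * Hb c b ≤ K := by
    have hs := sst_le c K
    have h10 : Hb c b ≤ CC c ^ (lev c K b - 1) := pow_le c (by omega)
    rcases hcase with h3 | h3
    · obtain ⟨-, -, h4, h5, h6, -⟩ := h3
      have h7 : b + 5 * CC c ^ (lev c K b - 1) ≤ Ut c (lev c K b) b := by
        unfold Ut
        have := le_sl c (b + Wd c b - gl c (lev c K b) b)
        have := gl_le c (lev c K b) b
        omega
      omega
    · obtain ⟨-, -, h4, h5, h6, h6', -⟩ := h3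
      have h7 : b + 5 * CC c ^ (lev c K b - 1) ≤ Dt c (lev c K b) b := by
        unfold Dt
        have := le_sl c (2 * CC c ^ lev c K b + gl c (lev c K b) b - b)
        have := lt_gl c (lev c K b) b
        have := gl_le c (lev c K b) b
        omega
      omega
  have hbw : b < wb c K' := by
    by_contra hn
    have h3 := lt_wb_add hc hK'
    have h4 : Hb c (wb c K') ≤ Hb c b := by
      unfold Hb j0 ep
      have := Nat.div_le_div_right (c := 3) (lg_mono (c := c) (show wb c K' ≤ b by omega))
      exact pow_le c (by omega)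
    omega
  rw [q3]
  apply cell_le_wb hc hK' (by omega) hbw q2
  rcases q4 with q4 | q4
  · exact Or.inl q4
  · right
    refine ⟨q4.1, ?_⟩
    have h5 : gl c l b + 5 * CC c ^ (l - 1) + CC c ^ l ≤ Dt c l b := by
      unfold Dt
      have := le_sl c (2 * CC c ^ l + gl c l b - b)
      have := lt_gl c l b
      omega
    have h6 : Hb c b ≤ CC c ^ (l - 1) := pow_le c (by omega)
    omega

theorem nearK (hc : 10 ≤ c) {K K' : ℕ} (hE : 7 ≤ epo c K) (h1 : K' ≤ K)
    (h2 : K < K' + gth c K) : ETS.NearK c K K' := by
  obtain ⟨hEE, hnc⟩ := near_cases hc hE h1 h2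
  have hK6 : 6 ≤ epo c K := by omega
  have hK' : 6 ≤ epo c K' := by omega
  have hgthK' : gth c K ≤ Gq c (epo c K') := by
    unfold gth
    exact Gq_mono hc (by omega) (by omega)
  have hGK : Gq c (epo c K') ≤ Gq c (epo c K) := Gq_mono hc (by omega) (epo_mono h1)
  have hGpos := Gq_pos c (epo c K')
  have hTG := Gq_le c (epo c K)
  have hTs := Tq_small (c := c) (t := K) hc (by omega)
  constructor
  · -- the window
    rcases wb_near hc hE h1 h2 with hw | hw
    · left
      refine ⟨hw, ?_⟩
      unfold wcomp
      rw [hw]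
      intro h3
      omega
    · right
      obtain ⟨w1, w2⟩ := hw
      have hlt := lt_wb_add hc hK'
      have hd := nb_dvd_wb hc hK'
      have hle := Hb_le_wb hc hK'
      have hG := G_le_nb hc (K := K) (b := wb c K') (by omega) (by omega)
      have hnH := nb_le_Hb c (wb c K')
      have hnp := nb_pos c (wb c K')
      have hHH : Hb c (wb c K') ≤ Hb c (wb c K) := by
        unfold Hb j0 ep
        have := Nat.div_le_div_right (c := 3) (lg_mono (c := c) (show wb c K' ≤ wb c K by omega))
        exact pow_le c (by omega)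
      have hlg := lg_wb hc hK'
      refine ⟨w1, ?_, ?_, ?_, ?_⟩
      · unfold wcomp
        omega
      · unfold wcomp
        rw [w1] at hHH ⊢
        omega
      · intro s h3 h4
        rw [w1] at h4 ⊢
        exact kid_newborn hc hK6 (by omega) hd (by omega) h3 h4 (by omega)
      · omega
  · -- the cells
    by_cases hact : ∃ b, un c b = b ∧ acts c K b
    · obtain ⟨b, hb, ha⟩ := hact
      right
      obtain ⟨h12, h8, hph, htm, hcase⟩ := acts_cases hc hK6 hb ha
      obtain ⟨hab, hb0⟩ := ab_eq hc hK6 hb ha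
      have hwK' := top_le_wb hc hE h1 h2 hb ha
      have hC := cellAt_acts hc hK6 hb ha
      have hak := ak_lt hc hK6 (show 0 < ab c K by omega)
      have hakK : ak c K = if isP c (tm c K) b then 2 - ph c K else ph c K := by
        unfold ak; rw [hab]
      rcases hnc with ⟨hO, hphs, htms⟩ | ⟨hph', hph0, hO⟩
      · -- the same slot
        have htm' := htms hph
        have ha' : acts c K' b := by
          unfold acts at ha ⊢
          rw [htm', isP_congr hO]
          exact ha
        have hg' : gM c K' b = gM c K b := by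
          unfold gM
          rw [htm', ga_congr hO]
        have hv' : vM c K' b = vM c K b := by
          unfold vM
          rw [htm', va_congr hO]
        have hC' := cellAt_acts hc hK' hb ha'
        obtain ⟨hab', hb0'⟩ := ab_eq hc hK' hb ha'
        have hak' := ak_lt hc hK' (show 0 < ab c K' by omega)
        have hakK' : ak c K' = if isP c (tm c K) b then 2 - ph c K' else ph c K' := by
          unfold ak; rw [hab', htm']
        have hphK' : ph c K' < 3 := by omega
        rw [hg', hv'] at hC'
        refine ⟨gM c K b, b, vM c K b, ak c K + 1, ak c K' + 1, ?_, by omega, by omega, hC, hC',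
          ?_⟩
        · rw [hakK, hakK']
          split_ifs <;> omega
        · intro s hs1 hs2
          have hs3 : s < wb c K := lt_of_lt_of_le hs1 (wb_mono hc hK' h1)
          rw [(kid_outside hc hK6 hb ha hs3 hs2).1,
            (kid_outside hc hK' hb ha' hs1 (by rw [hg', hv']; exact hs2)).1, rk_congr hO]
      · -- `K'` is in the slot before
        have hrest : ∀ b, un c b = b → ¬ acts c K' b := fun b _ => not_acts_of_ph hph' b
        rcases hcase with hc1 | hc1
        · -- up
          obtain ⟨u1, u2, -⟩ := hc1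
          have hak0 : ak c K = 0 := by rw [hakK, if_neg u2, hph0]
          refine ⟨gM c K b, b, vM c K b, ak c K + 1, 0, by omega, by omega, by omega, hC, ?_, ?_⟩
          · exact cellAt_rest hc hK6 hb ha (Or.inr rfl) hK' hrest hO hwK' (by omega)
              (Or.inl ⟨rfl, Or.inl ⟨u1, rfl⟩⟩)
          · intro s hs1 hs2
            have hs3 : s < wb c K := lt_of_lt_of_le hs1 (wb_mono hc hK' h1)
            have ho := kid_outside hc hK6 hb ha hs3 hs2
            rw [ho.1, kid_rest hc hK' hrest, rk_congr hO, ho.2.1]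
        · -- down
          obtain ⟨u1, u2, -⟩ := hc1
          have hak0 : ak c K = 2 := by rw [hakK, if_pos u2, hph0]
          refine ⟨gM c K b, b, vM c K b, ak c K + 1, 4, by omega, by omega, by omega, hC, ?_, ?_⟩
          · exact cellAt_rest hc hK6 hb ha (Or.inr rfl) hK' hrest hO hwK' (by omega)
              (Or.inr ⟨rfl, Or.inr ⟨u1, rfl⟩⟩)
          · intro s hs1 hs2
            have hs3 : s < wb c K := lt_of_lt_of_le hs1 (wb_mono hc hK' h1)
            have ho := kid_outside hc hK6 hb ha hs3 hs2
            rw [ho.1, kid_rest hc hK' hrest, rk_congr hO, ho.2.1]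
    · push Not at hact
      rcases hnc with ⟨hO, hphs, htms⟩ | ⟨hph', hph0, hO⟩
      · by_cases hact' : ∃ b, un c b = b ∧ acts c K' b
        · -- `K'` in transition, `K` at rest
          obtain ⟨b, hb, ha'⟩ := hact'
          right
          obtain ⟨h12, h8, hph', htm', hcase⟩ := acts_cases hc hK' hb ha'
          have hphK : 3 ≤ ph c K := by
            by_contra hn
            have e := htms (by omega)
            apply hact b hb
            unfold acts at ha' ⊢
            rw [← e, ← isP_congr hO]
            exact ha'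
          obtain ⟨hab', hb0'⟩ := ab_eq hc hK' hb ha'
          obtain ⟨p1, p2, p3, p4, -⟩ := acts_pos hc hK' hb ha'
          have hwK : vM c K' b ≤ wb c K := p4.trans (wb_mono hc hK' h1)
          have hC' := cellAt_acts hc hK' hb ha'
          have hak' := ak_lt hc hK' (show 0 < ab c K' by omega)
          have hakK' : ak c K' = if isP c (tm c K') b then 2 - ph c K' else ph c K' := by
            unfold ak; rw [hab']
          have hph2 : ph c K' = 2 := by omega
          rcases hcase with hc1 | hc1
          · obtain ⟨u1, u2, -⟩ := hc1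
            have hak0 : ak c K' = 2 := by rw [hakK', if_neg u2, hph2]
            refine ⟨gM c K' b, b, vM c K' b, 4, ak c K' + 1, by omega, by omega, by omega, ?_,
              hC', ?_⟩
            · exact cellAt_rest hc hK' hb ha' (Or.inl rfl) hK6 hact hO.symm hwK (by omega)
                (Or.inr ⟨rfl, Or.inl ⟨u1, rfl⟩⟩)
            · intro s hs1 hs2
              have ho := kid_outside hc hK' hb ha' hs1 hs2
              rw [ho.1, kid_rest hc hK6 hact, rk_congr hO]
          · obtain ⟨u1, u2, -⟩ := hc1
            have hak0 : ak c K' = 0 := by rw [hakK', if_pos u2, hph2]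
            refine ⟨gM c K' b, b, vM c K' b, 0, ak c K' + 1, by omega, by omega, by omega, ?_,
              hC', ?_⟩
            · exact cellAt_rest hc hK' hb ha' (Or.inl rfl) hK6 hact hO.symm hwK (by omega)
                (Or.inl ⟨rfl, Or.inr ⟨u1, rfl⟩⟩)
            · intro s hs1 hs2
              have ho := kid_outside hc hK' hb ha' hs1 hs2
              rw [ho.1, kid_rest hc hK6 hact, rk_congr hO]
        · push Not at hact'
          left
          intro s hs
          rw [kid_rest hc hK6 hact, kid_rest hc hK' hact', rk_congr hO]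
          exact ⟨rfl, isRest_rk c K s⟩
      · have hrest : ∀ b, un c b = b → ¬ acts c K' b := fun b _ => not_acts_of_ph hph' b
        left
        intro s hs
        rw [kid_rest hc hK6 hact, kid_rest hc hK' hrest, rk_congr hO,
          rk_tm hc hK6 (hact _ (un_un hc s))]
        exact ⟨rfl, isRest_rk c K s⟩

end Pool.Agent.Helper29.ETK
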